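import Mathlib

/-! The complete Boolean algebra of regular open subsets of a preorder; ultrafilters of a Boolean
algebra. -/

namespace Pool.Agent.Shared.Forcing

universe u v

/-- Regular open subsets of a preorder (smaller means stronger). -/
structure RO (P : Type u) [Preorder P] : Type u where
  s : Set P
  reg : ∀ p, p ∈ s ↔ ∀ q ≤ p, ∃ r ≤ q, r ∈ s

namespace RO

variable {P : Type u} [Preorder P]

instance : Membership P (RO P) := ⟨fun a p => p ∈ a.s⟩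

theorem mem_def {a : RO P} {p : P} : p ∈ a ↔ p ∈ a.s := Iff.rfl

theorem ext' {a b : RO P} (h : ∀ p, p ∈ a ↔ p ∈ b) : a = b := by
  cases a; cases b; congr; exact Set.ext h

theorem mono {a : RO P} {p q : P} (hp : p ∈ a) (h : q ≤ p) : q ∈ a :=
  (a.reg q).mpr fun r hr => (a.reg p).mp hp r (hr.trans h)

theorem of_dense {a : RO P} {p : P} (h : ∀ q ≤ p, ∃ r ≤ q, r ∈ a) : p ∈ a := (a.reg p).mpr h

/-- regularisation of the downward closure of a set -/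
def hull (S : Set P) : RO P where
  s := {p | ∀ q ≤ p, ∃ r ≤ q, ∃ t ∈ S, r ≤ t}
  reg := by
    intro p
    constructor
    · intro hp q hq
      exact ⟨q, le_rfl, fun r hr => hp r (hr.trans hq)⟩
    · intro h q hq
      obtain ⟨r, hr, hr'⟩ := h q hq
      obtain ⟨t, ht, h'⟩ := hr' r le_rfl
      exact ⟨t, ht.trans hr, h'⟩

theorem mem_hull {S : Set P} {p : P} : p ∈ hull S ↔ ∀ q ≤ p, ∃ r ≤ q, ∃ t ∈ S, r ≤ t := Iff.rfl

theorem mem_hull_of_mem {S : Set P} {p : P} (h : p ∈ S) : p ∈ hull S :=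
  fun q hq => ⟨q, le_rfl, p, h, hq⟩

def sInf' (S : Set (RO P)) : RO P where
  s := {p | ∀ a ∈ S, p ∈ a}
  reg := by
    intro p
    constructor
    · intro hp q hq
      exact ⟨q, le_rfl, fun a ha => mono (hp a ha) hq⟩
    · intro h a ha
      apply of_dense
      intro q hq
      obtain ⟨r, hr, hr'⟩ := h q hq
      exact ⟨r, hr, hr' a ha⟩

def compl' (a : RO P) : RO P where
  s := {p | ∀ q ≤ p, q ∉ a}
  reg := by
    intro p
    constructor
    · intro hp q hq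
      exact ⟨q, le_rfl, fun r hr => hp r (hr.trans hq)⟩
    · intro h q hq hqa
      obtain ⟨r, hr, hr'⟩ := h q hq
      exact hr' r le_rfl (mono hqa hr)

instance : PartialOrder (RO P) where
  le a b := ∀ p, p ∈ a → p ∈ b
  le_refl _ _ h := h
  le_trans _ _ _ h1 h2 p hp := h2 p (h1 p hp)
  le_antisymm _ _ h1 h2 := ext' fun p => ⟨h1 p, h2 p⟩

theorem le_def {a b : RO P} : a ≤ b ↔ ∀ p, p ∈ a → p ∈ b := Iff.rfl

instance : InfSet (RO P) := ⟨sInf'⟩

theorem mem_sInf {S : Set (RO P)} {p : P} : p ∈ sInf S ↔ ∀ a ∈ S, p ∈ a := Iff.rfl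

instance : CompleteLattice (RO P) :=
  completeLatticeOfInf (RO P) fun S =>
    ⟨fun a ha p hp => hp a ha, fun _ hb p hp a ha => hb ha p hp⟩

theorem mem_inf {a b : RO P} {p : P} : p ∈ a ⊓ b ↔ p ∈ a ∧ p ∈ b := by
  refine ⟨fun h => ⟨(inf_le_left : a ⊓ b ≤ a) p h, (inf_le_right : a ⊓ b ≤ b) p h⟩, fun h => ?_⟩
  rw [← sInf_pair, mem_sInf]
  rintro c (rfl | rfl)
  exacts [h.1, h.2]

theorem mem_top (p : P) : p ∈ (⊤ : RO P) := by
  rw [← sInf_empty, mem_sInf]; simp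

theorem hull_le {S : Set P} {a : RO P} : hull S ≤ a ↔ ∀ p ∈ S, p ∈ a := by
  refine ⟨fun h p hp => h p (mem_hull_of_mem hp), fun h p hp => of_dense fun q hq => ?_⟩
  obtain ⟨r, hr, t, ht, hrt⟩ := hp q hq
  exact ⟨r, hr, mono (h t ht) hrt⟩

theorem not_mem_bot (p : P) : p ∉ (⊥ : RO P) := by
  intro h
  have : p ∈ hull (∅ : Set P) := (bot_le : (⊥ : RO P) ≤ _) p h
  obtain ⟨r, -, t, ht, -⟩ := this p le_rfl
  exact ht

theorem mem_sSup {S : Set (RO P)} {p : P} :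
    p ∈ sSup S ↔ ∀ q ≤ p, ∃ r ≤ q, ∃ a ∈ S, r ∈ a := by
  have : sSup S = hull {p | ∃ a ∈ S, p ∈ a} := by
    apply le_antisymm
    · exact sSup_le fun a ha p hp => mem_hull_of_mem ⟨a, ha, hp⟩
    · exact hull_le.mpr fun p ⟨a, ha, hp⟩ => (le_sSup ha : a ≤ sSup S) p hp
  rw [this, mem_hull]
  refine forall₂_congr fun q _ => exists_congr fun r => and_congr_right fun _ => ?_
  exact ⟨fun ⟨t, ⟨a, ha, hta⟩, hrt⟩ => ⟨a, ha, mono hta hrt⟩,
    fun ⟨a, ha, hr⟩ => ⟨r, ⟨a, ha, hr⟩, le_rfl⟩⟩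

theorem mem_sup {a b : RO P} {p : P} : p ∈ a ⊔ b ↔ ∀ q ≤ p, ∃ r ≤ q, r ∈ a ∨ r ∈ b := by
  rw [← sSup_pair, mem_sSup]; simp

instance : DistribLattice (RO P) :=
  DistribLattice.ofInfSupLe fun a b c p hp => by
    rw [mem_inf, mem_sup] at hp
    rw [mem_sup]
    intro q hq
    obtain ⟨r, hr, h⟩ := hp.2 q hq
    have hra := mono hp.1 (hr.trans hq)
    exact ⟨r, hr, h.imp (fun h => mem_inf.mpr ⟨hra, h⟩) (fun h => mem_inf.mpr ⟨hra, h⟩)⟩

instance : BooleanAlgebra (RO P) where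
  compl := compl'
  inf_compl_le_bot a p hp := by
    rw [mem_inf] at hp
    exact absurd hp.1 (hp.2 p le_rfl)
  top_le_sup_compl a p _ := by
    rw [mem_sup]
    intro q _
    by_cases h : ∃ r ≤ q, r ∈ a
    · obtain ⟨r, hr, h⟩ := h
      exact ⟨r, hr, Or.inl h⟩
    · push Not at h
      exact ⟨q, le_rfl, Or.inr h⟩
  le_top _ := le_top
  bot_le _ := bot_le

instance : CompleteBooleanAlgebra (RO P) where

theorem mem_compl {a : RO P} {p : P} : p ∈ aᶜ ↔ ∀ q ≤ p, q ∉ a := Iff.rfl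

theorem mem_iInf {ι : Sort v} {f : ι → RO P} {p : P} : p ∈ ⨅ i, f i ↔ ∀ i, p ∈ f i := by
  rw [iInf, mem_sInf]; simp

theorem mem_iSup {ι : Sort v} {f : ι → RO P} {p : P} :
    p ∈ ⨆ i, f i ↔ ∀ q ≤ p, ∃ r ≤ q, ∃ i, r ∈ f i := by
  rw [iSup, mem_sSup]; simp

theorem ne_bot_iff {a : RO P} : a ≠ ⊥ ↔ ∃ p, p ∈ a := by
  constructor
  · intro h
    by_contra h'
    push Not at h'
    exact h (le_bot_iff.mp fun p hp => absurd hp (h' p))
  · rintro ⟨p, hp⟩ rfl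
    exact not_mem_bot p hp

theorem eq_bot_iff' {a : RO P} : a = ⊥ ↔ ∀ p, p ∉ a := by
  rw [← not_iff_not]; push Not; exact ne_bot_iff

theorem decide_dense (a : RO P) (p : P) : ∃ q ≤ p, q ∈ a ∨ q ∈ aᶜ :=
  mem_sup.mp (by rw [sup_compl_eq_top]; exact mem_top p) p le_rfl

theorem not_mem_of_mem_compl {a : RO P} {p : P} (h : p ∈ aᶜ) : p ∉ a := h p le_rfl

/-- the canonical dense map of a preorder into its regular open algebra -/
def io (p : P) : RO P := hull {p}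

theorem mem_io {p q : P} : q ∈ io p ↔ ∀ q' ≤ q, ∃ r ≤ q', r ≤ p := by
  simp [io, mem_hull]

theorem mem_io_of_le {p q : P} (h : q ≤ p) : q ∈ io p :=
  mem_io.mpr fun q' hq' => ⟨q', le_rfl, hq'.trans h⟩

theorem io_le {p : P} {a : RO P} : io p ≤ a ↔ p ∈ a := by
  simp [io, hull_le]

theorem io_ne_bot (p : P) : io p ≠ ⊥ := ne_bot_iff.mpr ⟨p, mem_io_of_le le_rfl⟩

theorem io_mono {p q : P} (h : q ≤ p) : io q ≤ io p := io_le.mpr (mem_io_of_le h)

end RO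

/-- Ultrafilters of a Boolean algebra. -/
structure Ultra (B : Type u) [BooleanAlgebra B] : Type u where
  s : Set B
  up : ∀ {a b}, a ∈ s → a ≤ b → b ∈ s
  inf : ∀ {a b}, a ∈ s → b ∈ s → a ⊓ b ∈ s
  compl : ∀ a, aᶜ ∈ s ↔ a ∉ s

namespace Ultra

variable {B : Type u} [BooleanAlgebra B]

instance : Membership B (Ultra B) := ⟨fun U a => a ∈ U.s⟩

variable {U : Ultra B} {a b : B}

theorem mono (h : a ∈ U) (hab : a ≤ b) : b ∈ U := U.up h hab

theorem inf_mem : a ⊓ b ∈ U ↔ a ∈ U ∧ b ∈ U :=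
  ⟨fun h => ⟨mono h inf_le_left, mono h inf_le_right⟩, fun h => U.inf h.1 h.2⟩

theorem compl_mem : aᶜ ∈ U ↔ a ∉ U := U.compl a

theorem bot_not_mem (U : Ultra B) : ⊥ ∉ U := fun h =>
  compl_mem.mp (mono h bot_le : (⊥ : B)ᶜ ∈ U) h

theorem top_mem (U : Ultra B) : ⊤ ∈ U := by
  rw [← compl_bot, compl_mem]; exact U.bot_not_mem

theorem sup_mem : a ⊔ b ∈ U ↔ a ∈ U ∨ b ∈ U := by
  rw [← compl_compl (a ⊔ b), compl_mem, compl_sup, inf_mem, compl_mem, compl_mem]; tauto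

theorem himp_mem : a ⇨ b ∈ U ↔ (a ∈ U → b ∈ U) := by
  rw [himp_eq, sup_mem, compl_mem]; tauto

theorem ne_bot (h : a ∈ U) : a ≠ ⊥ := fun e => U.bot_not_mem (e ▸ h)

theorem exists_mem (h : a ≠ ⊥) : ∃ U : Ultra B, a ∈ U := by
  have hp : (Order.Ideal.principal aᶜ).IsProper := by
    rw [Order.Ideal.isProper_iff_top_notMem]
    simpa using h
  obtain ⟨I, hI, hmax⟩ := hp.exists_le_maximal
  have hpr : I.IsPrime := inferInstance
  refine ⟨⟨{x | xᶜ ∈ I}, ?_, ?_, ?_⟩, hI (Order.Ideal.mem_principal.mpr le_rfl)⟩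
  · intro x y hx hxy
    exact I.lower (compl_le_compl hxy) hx
  · intro x y hx hy
    show (x ⊓ y)ᶜ ∈ I
    rw [compl_inf]
    exact Order.Ideal.sup_mem hx hy
  · intro x
    show xᶜᶜ ∈ I ↔ xᶜ ∉ I
    constructor
    · intro h1 h2
      have := Order.Ideal.sup_mem h2 h1
      rw [sup_compl_eq_top] at this
      exact hmax.toIsProper.top_notMem this
    · exact fun h => hpr.mem_or_compl_mem.resolve_left h

theorem le_of_forall (h : ∀ U : Ultra B, a ∈ U → b ∈ U) : a ≤ b := by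
  by_contra hn
  have : a ⊓ bᶜ ≠ ⊥ := by
    intro e
    exact hn (by rwa [← sdiff_eq, sdiff_eq_bot_iff] at e)
  obtain ⟨U, hU⟩ := exists_mem this
  rw [inf_mem, compl_mem] at hU
  exact hU.2 (h U hU.1)

theorem eq_bot_of_forall (h : ∀ U : Ultra B, a ∉ U) : a = ⊥ :=
  le_bot_iff.mp (le_of_forall fun U hU => absurd hU (h U))

theorem eq_top_of_forall (h : ∀ U : Ultra B, a ∈ U) : a = ⊤ :=
  top_le_iff.mp (le_of_forall fun U _ => h U)

end Ultra

theorem le_of_dense {B : Type u} [BooleanAlgebra B] {a b : B}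
    (h : ∀ c ≤ a, c ≠ ⊥ → c ⊓ b ≠ ⊥) : a ≤ b := by
  by_contra hn
  have : a ⊓ bᶜ ≠ ⊥ := by
    intro e
    exact hn (by rwa [← sdiff_eq, sdiff_eq_bot_iff] at e)
  exact h _ inf_le_left this (by simp [inf_assoc])

theorem exists_inf_ne_bot {B : Type u} [CompleteBooleanAlgebra B] {ι : Sort v} {a : B}
    {f : ι → B} (h : a ≤ ⨆ i, f i) (ha : a ≠ ⊥) : ∃ i, a ⊓ f i ≠ ⊥ := by
  by_contra hn
  push Not at hn
  apply ha
  rw [← inf_eq_left.mpr h, inf_iSup_eq]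
  simp [hn]

end Pool.Agent.Shared.Forcing
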