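import Pool.Agent.Shared.Forcing.Check

/-! Preservation and collapse of cardinals, alephs and GCH in the generic extension. -/

namespace Pool.Agent.Shared.Forcing

open Cardinal Set

universe u v

variable {B : Type u} [CompleteBooleanAlgebra B]

/-- covering lemma -/
theorem Fac.cover {c : Cardinal.{u}} {S₀ : Set B} (h : Fac c S₀) (hc : ℵ₀ ≤ c) {ι X : Type u}
    (hι : #ι < c) (v : ι → X → B) (b : B) (hb : b ≠ ⊥) :
    ∃ b' ≤ b, b' ≠ ⊥ ∧ ∃ Y : Set X, #Y < c ∧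
      ∀ i x, b' ⊓ v i x ≠ ⊥ → ∃ y ∈ Y, b' ⊓ v i x ⊓ v i y ≠ ⊥ := by
  classical
  obtain ⟨b', h1, h2, S, -, h4, h5⟩ := h ι hι
    (fun i => {d | (∃ x, d ≤ v i x) ∨ ∀ x, d ⊓ v i x = ⊥}) (by
      intro i d hd
      by_cases e : ∀ x, d ⊓ v i x = ⊥
      · exact ⟨d, le_rfl, hd, Or.inr e⟩
      · push Not at e
        obtain ⟨x, hx⟩ := e
        exact ⟨d ⊓ v i x, inf_le_left, hx, Or.inl ⟨x, inf_le_right⟩⟩)
    (fun i d d' hd h' => h'.imp (fun ⟨x, hx⟩ => ⟨x, hd.trans hx⟩)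
      (fun H x => le_bot_iff.mp ((inf_le_inf_right _ hd).trans (H x).le))) b hb
  let T := {q : ι × S // ∃ x, q.2.1 ⊓ b' ≤ v q.1 x}
  refine ⟨b', h1, h2, range (fun q : T => q.2.choose), ?_, fun i x hx => ?_⟩
  · refine mk_range_le.trans_lt ((mk_subtype_le _).trans_lt ?_)
    rw [mk_prod, lift_id, lift_id]
    exact mul_lt_of_lt hc hι h4
  · obtain ⟨⟨s, hs, hs'⟩, hne⟩ := exists_inf_ne_bot (inf_le_left.trans (h5 i) : b' ⊓ v i x ≤ _) hx
    rcases hs' with hs' | hs'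
    · refine ⟨_, ⟨⟨(i, ⟨s, hs⟩), hs'⟩, rfl⟩, fun e => hne (le_bot_iff.mp (le_trans ?_ e.le))⟩
      exact le_inf inf_le_left ((le_inf inf_le_right (inf_le_left.trans inf_le_left)).trans
        hs'.choose_spec)
    · refine absurd (le_bot_iff.mp (le_trans ?_ (hs' x).le)) hne
      exact le_inf (le_inf inf_le_right (inf_le_left.trans inf_le_left))
        (inf_le_left.trans inf_le_right)

theorem Fac.mono {c : Cardinal.{u}} {S₀ S₁ : Set B} (h : Fac c S₀) (hS : S₀ ⊆ S₁) : Fac c S₁ := by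
  intro ι hι D h1 h2 b hb
  obtain ⟨b', a1, a2, S, a3, a4, a5⟩ := h ι hι D h1 h2 b hb
  exact ⟨b', a1, a2, S, a3.trans hS, a4, a5⟩

/-- the factorisation property at the successor of a singular limit -/
theorem Fac.singular {δ c₀ : Cardinal.{u}} (hδ : ℵ₀ ≤ δ) {τ : Type u} (hτ : #τ < c₀) (hc₀ : c₀ ≤ δ)
    {S₀ : Set B} (h₀ : Fac c₀ S₀) (c : τ → Cardinal.{u}) (hc : ∀ i, c i ≤ δ)
    (hF : ∀ i, Fac (c i) S₀)
    (hcov : ∀ ι : Type u, #ι ≤ δ → ∃ f : ι → τ, ∀ i, #(f ⁻¹' {i}) < c i) :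
    Fac (Order.succ δ) (image2 (· ⊓ ·) S₀ S₀) := by
  intro ι hι D h1 h2 b hb
  obtain ⟨f, hf⟩ := hcov ι (Order.lt_succ_iff.mp hι)
  obtain ⟨b', a1, a2, S', a3, a4, a5⟩ := h₀ τ hτ (fun i => {d | ∃ S ⊆ S₀, #S < c i ∧
      ∀ k : f ⁻¹' {i}, d ≤ ⨆ s : {s // s ∈ S ∧ s ⊓ d ∈ D k}, s.1})
    (fun i d hd => by
      obtain ⟨d', e1, e2, S, e3, e4, e5⟩ := hF i _ (hf i) (fun k => D k.1) (fun k => h1 k)
        (fun k => h2 k) d hd
      exact ⟨d', e1, e2, S, e3, e4, e5⟩)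
    (fun i d d' hd ⟨S, e3, e4, e5⟩ => ⟨S, e3, e4, fun k => hd.trans ((e5 k).trans
      (iSup_le fun ⟨s, hs, hs'⟩ => le_iSup_of_le ⟨s, hs, h2 _ _ _ (inf_le_inf_left _ hd) hs'⟩
        le_rfl))⟩) b hb
  let T := {q : τ × S' // ∃ S ⊆ S₀, #S < c q.1 ∧
      ∀ k : f ⁻¹' {q.1}, q.2.1 ⊓ b' ≤ ⨆ s : {s // s ∈ S ∧ s ⊓ (q.2.1 ⊓ b') ∈ D k}, s.1}
  refine ⟨b', a1, a2, ⋃ q : T, (fun s => s ⊓ q.1.2.1) '' q.2.choose, ?_, ?_, fun k => ?_⟩
  · rintro _ ⟨_, ⟨q, rfl⟩, s, hs, rfl⟩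
    exact mem_image2_of_mem (q.2.choose_spec.1 hs) (a3 q.1.2.2)
  · rw [Order.lt_succ_iff]
    refine (mk_iUnion_le _).trans ?_
    have hT : #T ≤ δ := by
      refine (mk_subtype_le _).trans ?_
      rw [mk_prod, lift_id, lift_id]
      exact (mul_le_mul' (hτ.le.trans hc₀) (a4.le.trans hc₀)).trans (mul_eq_self hδ).le
    refine (mul_le_mul' hT (ciSup_le' fun q => ?_)).trans (mul_eq_self hδ).le
    exact mk_image_le.trans (q.2.choose_spec.2.1.le.trans (hc _))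
  · refine le_trans (le_inf (a5 (f k)) le_rfl) ?_
    rw [iSup_inf_eq]
    refine iSup_le fun ⟨s', hs', hs''⟩ => ?_
    let q : T := ⟨(f k, ⟨s', hs'⟩), hs''⟩
    refine le_trans (le_inf (q.2.choose_spec.2.2 ⟨k, rfl⟩) inf_le_left) ?_
    rw [iSup_inf_eq]
    refine iSup_le fun ⟨s, hs, hs2⟩ => le_iSup_of_le ⟨s ⊓ s', mem_iUnion.mpr ⟨q, s, hs, rfl⟩, ?_⟩ le_rfl
    rw [inf_assoc]; exact hs2

variable {l : Cardinal.{u}} [hl : Fact l.IsInaccessible]

theorem Fac.noInj {c : Cardinal.{u}} {S₀ : Set B} (h : Fac c S₀) (hc : ℵ₀ ≤ c) {k : OT l}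
    (hk : c ≤ cd k) {s : Set (OT l)} (hs : #s < c) : NoInj B k s := by
  intro b v h1 h2
  by_contra hb
  obtain ⟨b', a1, a2, Y, a3, a4⟩ := h.cover hc hs (fun (d : s) (ξ : OT l) => v ξ d) b hb
  have : ¬ Iio k ⊆ Y := fun e => (a3.trans_le hk).not_ge (mk_le_mk_of_subset e)
  obtain ⟨ξ, hξ, hξY⟩ := not_subset.mp this
  obtain ⟨d, hd⟩ := exists_inf_ne_bot (a1.trans (h1 ξ hξ)) a2
  obtain ⟨y, hy, hy'⟩ := a4 d ξ hd
  exact hy' (le_bot_iff.mp ((inf_le_inf_right _ (inf_le_inf_right _ a1)).trans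
    (h2 ξ y d (fun e => hξY (e ▸ hy))).le))

omit hl in
theorem Coll.of_emb {J J' : Type u} {k : OT l} (h : Coll B J k) (e : J' ↪ J) : Coll B J' k := by
  obtain ⟨v, h1, h2⟩ := h
  exact ⟨fun j => v (e j), fun j j' d hne => h1 _ _ d (e.injective.ne hne), fun j => h2 _⟩

omit hl in
theorem Coll.of_le {J J' : Type u} {k : OT l} (h : Coll B J k) (e : #J' ≤ #J) : Coll B J' k :=
  h.of_emb e.some

omit hl in
theorem coll_self (k : OT l) : Coll B (Iio k) k := by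
  classical
  refine ⟨fun j d => if j.1 = d then ⊤ else ⊥, fun j j' d hne => ?_, fun j => ?_⟩
  · by_cases e : j.1 = d
    · have : j'.1 ≠ d := fun e' => hne (Subtype.ext (e.trans e'.symm))
      simp [this]
    · simp [e]
  · exact top_le_iff.mp (le_iSup_of_le j (by simp))

omit hl in
theorem coll_of_le {J : Type u} {k : OT l} (h : #J ≤ cd k) : Coll B J k := (coll_self k).of_le h

omit hl in
/-- no injection of an infinite ordinal into a finite set -/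
theorem noInj_finite {k : OT l} (hk : ℵ₀ ≤ cd k) {s : Set (OT l)} (hs : #s < ℵ₀) : NoInj B k s := by
  intro b v h1 h2
  by_contra hb
  obtain ⟨U, hU⟩ := Ultra.exists_mem hb
  have hfin : Finite s := lt_aleph0_iff_finite.mp hs
  have key : ∀ c : Iio k, ∃ d : s, v c d ∈ U := by
    intro c
    by_contra hn
    push Not at hn
    have hfs : ∀ t : Finset s, (t.sup fun d => v c d) ∉ U := by
      classical
      intro t
      induction t using Finset.induction_on with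
      | empty => simpa using U.bot_not_mem
      | insert a t _ ih => rw [Finset.sup_insert, Ultra.sup_mem]; exact fun h => h.elim (hn a) ih
    have := Fintype.ofFinite s
    refine hfs Finset.univ (Ultra.mono hU ((h1 c c.2).trans (iSup_le fun d => ?_)))
    exact Finset.le_sup (f := fun d : s => v c d) (Finset.mem_univ d)
  choose f hf using key
  have : Infinite (Iio k) := infinite_iff.mpr hk
  obtain ⟨c, c', hne, e⟩ := Finite.exists_ne_map_eq_of_infinite f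
  refine Ultra.ne_bot (Ultra.inf_mem.mpr ⟨Ultra.inf_mem.mpr ⟨hU, hf c⟩, e ▸ hf c'⟩)
    (h2 _ _ _ fun e => hne (Subtype.ext e))

theorem inj_ck_of_coll {a b : OT l} (h : Coll B (Iio a) b) (U : Ultra B) :
    Inj (El l U) (ck U a) (ck U b) := by
  refine inj_of_cover (cd_lt a) h (fun j => chk B j.1) _ U fun Z hZ => ?_
  refine wlog_ck Z a U hZ ?_
  intro U c hc e
  exact iSup_mem_of_mem (⟨c, hc⟩ : Iio a) (cls_eq.mp e)

theorem isCard_ck {k : OT l} (h : ∀ a < k, NoInj B k (Iio a)) (U : Ultra B) :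
    IsCard (El l U) (ck U k) := by
  refine ⟨isOrd_ck U k, fun a ha => ?_⟩
  obtain ⟨A, rfl⟩ := cls_surj a
  refine wlog_ck A k U ha ?_
  intro U a ha e
  rw [e, ck, ck, chk_eq_setName a]
  exact not_inj_of_noInj _ (h a ha) U

/-- the data attached to a successor cardinal of the extension -/
def Nice (B : Type u) [CompleteBooleanAlgebra B] (l : Cardinal.{u}) [Fact l.IsInaccessible]
    (c : Cardinal.{u}) : Prop :=
  ℵ₀ ≤ c ∧ c < l ∧ ∃ S₀ : Set B, Fac c S₀ ∧ #S₀ < l ∧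
    ∀ ι : Type u, #ι < c → Coll B {Z : Set (ι × S₀) // #Z < c} (oc l c)

/-- everything below `c` is collapsed to `e` -/
def Cl (B : Type u) [CompleteBooleanAlgebra B] (l : Cardinal.{u}) [Fact l.IsInaccessible]
    (c e : Cardinal.{u}) : Prop :=
  ∀ J : Type u, #J < c → Coll B J (oc l e)

theorem Nice.isCard {c : Cardinal.{u}} (h : Nice B l c) (U : Ultra B) :
    IsCard (El l U) (ck U (oc l c)) := by
  obtain ⟨h1, h2, S₀, h3, -⟩ := h
  exact isCard_ck (fun a ha => h3.noInj h1 (cd_oc h2).ge ((lt_oc h2).mp ha)) U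

theorem isSucc_ck {c e : Cardinal.{u}} (hc : Nice B l c) (hcl : Cl B l c e) {a : OT l}
    (hea : e ≤ cd a) (hac : cd a < c) (U : Ultra B) :
    IsSucc (El l U) (ck U a) (ck U (oc l c)) := by
  refine ⟨hc.isCard U, el_ck_of_lt ((lt_oc hc.2.1).mpr hac), fun d hd had => ?_⟩
  obtain ⟨D, rfl⟩ := cls_surj d
  have := hd.1
  revert hd had
  refine wlog_ord D U this ?_
  intro U d e'
  rw [e']
  intro hd had
  rw [el_ck] at had
  rw [sub_ck]
  by_contra hn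
  have h1 : cd d < c := (lt_oc hc.2.1).mp (not_le.mp hn)
  have h2 : oc l e ≤ a := (oc_le (hea.trans_lt (cd_lt a))).mpr hea
  exact hd.2 _ (el_ck_of_lt (h2.trans_lt had)) (inj_ck_of_coll (hcl _ h1) U)

/-- the global cardinal structure of the extension -/
def CardStr (B : Type u) [CompleteBooleanAlgebra B] (l : Cardinal.{u}) [Fact l.IsInaccessible] :
    Prop :=
  ∀ σ < l, ℵ₀ ≤ σ → ∃ c e, Nice B l c ∧ Cl B l c e ∧ e ≤ σ ∧ σ < c

theorem CardStr.tame (h : CardStr B l) : Tame B l := by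
  intro a ha
  obtain ⟨c, e, ⟨-, -, S₀, h1, h2, -⟩, -, -, h3⟩ :=
    h (max a ℵ₀) (max_lt ha aleph0_lt_l) (le_max_right _ _)
  exact ⟨c, S₀, (le_max_left _ _).trans_lt h3, h2, h1⟩

theorem CardStr.gch (h : CardStr B l) (U : Ultra B) : GCH (El l U) := by
  intro w k k' p hw hk hwk hs hp
  obtain rfl := IsOmega.uniq (md_ext U) (isOmega_ck U) hw
  obtain ⟨K, rfl⟩ := cls_surj k
  obtain ⟨K', rfl⟩ := cls_surj k'
  obtain ⟨P, rfl⟩ := cls_surj p
  have := hk.1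
  clear hw hk
  revert hwk hs hp
  refine wlog_ord K U this ?_
  intro U a e
  rw [e]
  intro hwk hs hp
  rw [sub_ck, oc_le aleph0_lt_l] at hwk
  obtain ⟨c, e, hc, hcl, h1, h2⟩ := h _ (cd_lt a) hwk
  rw [IsSucc.uniq (md_ext U) hs (isSucc_ck hc hcl h1 h2 U)]
  obtain ⟨hc0, hcl', S₀, hF, hS, hC⟩ := hc
  classical
  let y : {Z : Set (Iio a × S₀) // #Z < c} → SName B l := fun Z =>
    valName a (fun η => sSup {s | ∃ h1 : η < a, ∃ h2 : s ∈ S₀, (⟨η, h1⟩, ⟨s, h2⟩) ∈ Z.1})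
  refine inj_of_cover ((mk_subtype_le _).trans_lt (set_lt_l (prod_lt_l (cd_lt a) hS))) (hC _ h2)
    y P U fun Z hZ => ?_
  have hZ' : Sub (El l U) (cls U Z) (ck U a) := (hp _).mp hZ
  clear hZ hp hs
  revert hZ'
  refine of_dense (Φ := fun U => Sub (El l U) (cls U Z) (ck U a) →
    ⨆ j, HName.eq Z (HName.emb (y j)) ∈ U) (b := ⊤) ?_ U U.top_mem
  intro b _ hb
  obtain ⟨b', a1, a2, S, a3, a4, a5⟩ := hF.values h2
    (fun i : Iio a => HName.mem (HName.emb (chk B i.1)) Z) b hb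
  refine ⟨b', a1, a2, fun U hU hZ => ?_⟩
  let Φ : Set (Iio a × S₀) :=
    {q | q.2.1 ∈ S ∧ q.2.1 ⊓ b' ≤ HName.mem (HName.emb (chk B q.1.1)) Z}
  have hΦ : #Φ < c := by
    refine lt_of_le_of_lt (mk_le_of_injective (f := fun q : Φ => ((q.1.1, ⟨q.1.2.1, q.2.1⟩) :
      Iio a × S)) ?_) ?_
    · rintro ⟨⟨x, s, hs⟩, h⟩ ⟨⟨x', s', hs'⟩, h'⟩ e
      simp only [Prod.mk.injEq, Subtype.mk.injEq] at e
      obtain ⟨rfl, rfl⟩ := e
      rfl
    · rw [mk_prod, lift_id, lift_id]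
      exact mul_lt_of_lt hc0 h2 a4
  refine iSup_mem_of_mem (⟨Φ, hΦ⟩ : {Z : Set (Iio a × S₀) // #Z < c}) (cls_eq.mp ?_)
  refine eq_of_sub_ck Z _ a b' (fun η hη U hU => ?_) U hU hZ (valName_sub U _ _)
  rw [el_valName, and_iff_right hη, el_cls]
  have e1 : {s | ∃ h1 : η < a, ∃ h2 : s ∈ S₀, (⟨η, h1⟩, ⟨s, h2⟩) ∈ Φ} =
      {s | s ∈ S ∧ s ⊓ b' ≤ HName.mem (HName.emb (chk B η)) Z} := by
    ext s
    exact ⟨fun ⟨_, _, h⟩ => h, fun h => ⟨hη, a3 h.1, h⟩⟩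
  have e2 := a5 ⟨η, hη⟩
  simp only at e2
  rw [e1]
  constructor
  · intro h
    have := Ultra.inf_mem.mpr ⟨hU, h⟩
    rw [e2] at this
    exact (Ultra.inf_mem.mp this).2
  · intro h
    have := Ultra.inf_mem.mpr ⟨hU, h⟩
    rw [← e2] at this
    exact (Ultra.inf_mem.mp this).2

theorem isAleph_ck (al : ℕ → Cardinal.{u}) (n : ℕ) (h0 : al 0 = ℵ₀)
    (h : ∀ i < n, Nice B l (al (i + 1)) ∧ Cl B l (al (i + 1)) (al i) ∧ al i < al (i + 1))
    (U : Ultra B) : ∀ i ≤ n, IsAleph (El l U) i (ck U (oc l (al i)))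
  | 0, _ => by rw [h0]; exact isOmega_ck U
  | i + 1, hi => by
    obtain ⟨h1, h2, h3⟩ := h i hi
    have : al i < l := h3.trans h1.2.1
    exact ⟨_, isAleph_ck al n h0 h U i (by omega),
      isSucc_ck h1 h2 (cd_oc this).ge ((cd_oc this).le.trans_lt h3) U⟩

end Pool.Agent.Shared.Forcing
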