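import Mathlib

/-! The well-order of all ordinals below a cardinal, as a type in the same universe. -/

namespace Pool.Agent.Shared.Forcing

open Cardinal Set

universe u

abbrev OT (l : Cardinal.{u}) : Type u := l.ord.ToType

variable {l : Cardinal.{u}}

noncomputable def cd (a : OT l) : Cardinal.{u} := #(Iio a)

noncomputable def ot (a : OT l) : Ordinal.{u} := (Ordinal.ToType.mk.symm a).1

theorem ot_lt_ot {a b : OT l} : ot a < ot b ↔ a < b :=
  (Ordinal.ToType.mk (o := l.ord)).symm.lt_iff_lt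

theorem ot_le_ot {a b : OT l} : ot a ≤ ot b ↔ a ≤ b :=
  (Ordinal.ToType.mk (o := l.ord)).symm.le_iff_le

theorem ot_lt (a : OT l) : ot a < l.ord := (Ordinal.ToType.mk.symm a).2

theorem ot_mk (o : Ordinal.{u}) (h : o < l.ord) : ot (Ordinal.ToType.mk ⟨o, h⟩) = o := by
  simp [ot]

theorem cd_eq (a : OT l) : cd a = (ot a).card :=
  (Ordinal.card_typein (r := fun x y : OT l => x < y) a).symm ▸ rfl

theorem cd_lt (a : OT l) : cd a < l := mk_Iio_toType_ord_lt a

theorem cd_mono {a b : OT l} (h : a ≤ b) : cd a ≤ cd b := mk_le_mk_of_subset (Iio_subset_Iio h)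

theorem lt_of_cd_lt {a b : OT l} (h : cd a < cd b) : a < b :=
  lt_of_not_ge fun h' => h.not_ge (cd_mono h')

theorem mk_Iic (a : OT l) : #(Iic a) = cd a + 1 := by
  rw [← Iio_insert, mk_insert (by simp)]; rfl

theorem exists_bound {c : Cardinal.{u}} (hc : c.IsRegular) (hcl : c ≤ l) {ι : Type u} (hι : #ι < c)
    (f : ι → OT l) (hf : ∀ i, cd (f i) < c) : ∃ b : OT l, cd b < c ∧ ∀ i, f i < b := by
  have h1 : ⨆ i, (ot (f i) + 1) < c.ord :=
    Ordinal.iSup_add_one_lt_of_lt_cof (by rwa [hc.cof_ord]) fun i => by rw [lt_ord, ← cd_eq]; exact hf i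
  refine ⟨Ordinal.ToType.mk ⟨_, h1.trans_le (ord_le_ord.mpr hcl)⟩, ?_, fun i => ?_⟩
  · rw [cd_eq, ot_mk, ← lt_ord]; exact h1
  · rw [← ot_lt_ot, ot_mk]
    exact (lt_add_one _).trans_le (Ordinal.le_iSup (fun i => ot (f i) + 1) i)

theorem exists_bound_set {c : Cardinal.{u}} (hc : c.IsRegular) (hcl : c ≤ l) {s : Set (OT l)}
    (hs : #s < c) (hf : ∀ a ∈ s, cd a < c) : ∃ b : OT l, cd b < c ∧ ∀ a ∈ s, a < b := by
  obtain ⟨b, h1, h2⟩ := exists_bound hc hcl hs (fun a => a.1) fun a => hf a.1 a.2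
  exact ⟨b, h1, fun a ha => h2 ⟨a, ha⟩⟩

theorem exists_gt_cd_lt {c : Cardinal.{u}} (hc : c.IsRegular) (hcl : c ≤ l) {a : OT l}
    (ha : cd a < c) : ∃ b : OT l, cd b < c ∧ a < b := by
  obtain ⟨b, h1, h2⟩ := exists_bound_set hc hcl (s := {a})
    (by rw [mk_singleton]; exact one_lt_aleph0.trans_le hc.aleph0_le) (by simpa using ha)
  exact ⟨b, h1, h2 a rfl⟩

variable [hl : Fact l.IsInaccessible]

instance : Nonempty (OT l) := ⟨Ordinal.ToType.mk ⟨0, hl.out.isRegular.ord_pos⟩⟩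

instance : NoMaxOrder (OT l) :=
  ⟨fun a => (exists_gt_cd_lt hl.out.isRegular le_rfl (cd_lt a)).imp fun _ h => h.2⟩

open Classical in
/-- the initial ordinal of a cardinal below `l` -/
noncomputable def oc (l : Cardinal.{u}) [Fact l.IsInaccessible] (c : Cardinal.{u}) : OT l :=
  if h : c < l then Ordinal.ToType.mk ⟨c.ord, ord_lt_ord.mpr h⟩ else Classical.arbitrary _

theorem ot_oc {c : Cardinal.{u}} (h : c < l) : ot (oc l c) = c.ord := by
  rw [oc, dif_pos h, ot_mk]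

theorem lt_oc {c : Cardinal.{u}} (h : c < l) {a : OT l} : a < oc l c ↔ cd a < c := by
  rw [← ot_lt_ot, ot_oc h, lt_ord, cd_eq]

theorem oc_le {c : Cardinal.{u}} (h : c < l) {a : OT l} : oc l c ≤ a ↔ c ≤ cd a := by
  rw [← not_lt, lt_oc h, not_lt]

theorem cd_oc {c : Cardinal.{u}} (h : c < l) : cd (oc l c) = c := by
  rw [cd_eq, ot_oc h, card_ord]

theorem mk_Iio_oc {c : Cardinal.{u}} (h : c < l) : #(Iio (oc l c)) = c := cd_oc h

theorem oc_lt_oc {c d : Cardinal.{u}} (hc : c < l) (hd : d < l) : oc l c < oc l d ↔ c < d := by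
  rw [lt_oc hd, cd_oc hc]

theorem oc_le_oc {c d : Cardinal.{u}} (hc : c < l) (hd : d < l) : oc l c ≤ oc l d ↔ c ≤ d := by
  rw [oc_le hc, cd_oc hd]

theorem oc_cd_le (a : OT l) : oc l (cd a) ≤ a := (oc_le (cd_lt a)).mpr le_rfl

theorem setOf_cd_lt {c : Cardinal.{u}} (h : c < l) : {a : OT l | cd a < c} = Iio (oc l c) := by
  ext a; simp [lt_oc h]

theorem mk_cd_lt {c : Cardinal.{u}} (h : c < l) : #{a : OT l | cd a < c} = c := by
  rw [setOf_cd_lt h, mk_Iio_oc h]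

theorem cd_succ (a : OT l) : cd (Order.succ a) = cd a + 1 := by
  rw [cd, Order.Iio_succ, mk_Iic]

theorem exists_succ_of_finite {a : OT l} (ha : cd a < ℵ₀) (hne : ∃ b, b < a) :
    ∃ b, a = Order.succ b := by
  have hfin : (Iio a).Finite := lt_aleph0_iff_set_finite.mp ha
  obtain ⟨b, hb, hmax⟩ := hfin.exists_maximal hne
  refine ⟨b, le_antisymm (le_of_not_gt fun h => ?_) (Order.succ_le_of_lt hb)⟩
  exact (Order.lt_succ b).not_ge (hmax h (Order.le_succ b))

end Pool.Agent.Shared.Forcing
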