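import Pool.Agent.Shared.Forcing.ZFC
import Pool.Agent.Shared.Forcing.WO

/-! Check names of ordinals, ordered pairs, injections in the generic extension. -/

namespace Pool.Agent.Shared.Forcing

open Cardinal Set

universe u v

section internal

variable {M : Type u} {E : M → M → Prop}

theorem IsKPair.uniq (hp : ∀ x y, ∃ p, ∀ z, E z p ↔ z = x ∨ z = y) {p x y x' y' : M}
    (h : IsKPair E p x y) (h' : IsKPair E p x' y') : x = x' ∧ y = y' := by
  have key : ∀ {x y x' y' : M}, IsKPair E p x y → IsKPair E p x' y' → x = x' ∧ (y = x' ∨ y = y') := by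
    intro x y x' y' h h'
    obtain ⟨s, hs⟩ := hp x x
    obtain ⟨t, ht⟩ := hp x y
    constructor
    · rcases (h' s).mp ((h s).mpr (Or.inl hs)) with e | e
      · exact (((hs x').mp ((e x').mpr (Or.inl rfl))).elim id id).symm
      · exact (((hs x').mp ((e x').mpr (Or.inl rfl))).elim id id).symm
    · rcases (h' t).mp ((h t).mpr (Or.inr ht)) with e | e
      · exact Or.inl (((e y).mp ((ht y).mpr (Or.inr rfl))).elim id id)
      · exact (e y).mp ((ht y).mpr (Or.inr rfl))
  obtain ⟨h1, h2⟩ := key h h'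
  obtain ⟨-, h3⟩ := key h' h
  refine ⟨h1, h2.elim (fun h2 => h3.elim (fun h3 => ?_) Eq.symm) id⟩
  rw [h2, h3, h1]

theorem IsOmega.uniq (hext : ∀ a b, (∀ z, E z a ↔ E z b) → a = b) {w w' : M}
    (h : IsOmega E w) (h' : IsOmega E w') : w = w' :=
  hext _ _ fun z => ⟨h.2 w' h'.1 z, h'.2 w h.1 z⟩

theorem IsSucc.uniq (hext : ∀ a b, (∀ z, E z a ↔ E z b) → a = b) {k c c' : M}
    (h : IsSucc E k c) (h' : IsSucc E k c') : c = c' :=
  hext _ _ fun z => ⟨h.2.2 c' h'.1 h'.2.1 z, h'.2.2 c h.1 h.2.1 z⟩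

theorem IsAleph.uniq (hext : ∀ a b, (∀ z, E z a ↔ E z b) → a = b) :
    ∀ {n : ℕ} {k k' : M}, IsAleph E n k → IsAleph E n k' → k = k'
  | 0, _, _, h, h' => IsOmega.uniq hext h h'
  | _ + 1, _, _, ⟨_, h1, h2⟩, ⟨_, h1', h2'⟩ =>
    IsSucc.uniq hext h2 (IsAleph.uniq hext h1' h1 ▸ h2')

theorem IsOrd.of_mem {a x : M} (h : IsOrd E a) (hx : E x a) : IsOrd E x :=
  ⟨fun y z hz hy => h.2 x y z hz hy hx, fun y z w hw hz hy => h.2 y z w hw hz (h.1 x y hy hx)⟩

end internal

variable {B : Type u} [CompleteBooleanAlgebra B] {l : Cardinal.{u}} [hl : Fact l.IsInaccessible]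

theorem not_el_self (U : Ultra B) (x : Md l U) : ¬ El l U x x := by
  intro h
  obtain ⟨p, hp⟩ := md_pair U x x
  obtain ⟨y, hy, hy'⟩ := md_found U p ⟨x, (hp x).mpr (Or.inl rfl)⟩
  obtain rfl : y = x := ((hp y).mp hy).elim id id
  exact hy' y h hy

variable (B) in
/-- the canonical name of an ordinal below `l` -/
noncomputable def chk (a : OT l) : SName B l :=
  (wellFounded_lt (α := OT l)).fix (C := fun _ => SName B l)
    (fun a ih => SName.mk (Iio a) (cd_lt a) (fun b => ih b.1 b.2) (fun _ => ⊤)) a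

omit hl in
theorem chk_eq (a : OT l) :
    chk B a = SName.mk (Iio a) (cd_lt a) (fun b => chk B b.1) (fun _ => ⊤) := by
  rw [chk, WellFounded.fix_eq]; rfl

attribute [irreducible] chk

/-- the ordinal `a` in the extension -/
noncomputable abbrev ck (U : Ultra B) (a : OT l) : Md l U := sm U (chk B a)

omit hl in
theorem el_ck_of_lt {U : Ultra B} {a b : OT l} (h : b < a) : El l U (ck U b) (ck U a) := by
  have := mem_mk (U := U) (cd_lt a) (fun b : Iio a => chk B b.1) (fun _ => ⊤) ⟨b, h⟩ U.top_mem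
  rwa [← chk_eq] at this

@[elab_as_elim]
theorem wlog_ck {Φ : Ultra B → Prop} (Z : HName B l) (a : OT l) (U : Ultra B)
    (h : El l U (cls U Z) (ck U a)) [Dec Φ] (H : ∀ U b, b < a → cls U Z = ck U b → Φ U) : Φ U := by
  rw [ck, chk_eq] at h
  exact wlog_mk Z (cd_lt a) _ _ U h fun U b _ e => H U b.1 b.2 e

theorem ck_inj {U : Ultra B} {a b : OT l} (h : ck U a = ck U b) : a = b := by
  rcases lt_trichotomy a b with h' | h' | h'
  · have := el_ck_of_lt (U := U) h'
    rw [h] at this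
    exact absurd this (not_el_self U _)
  · exact h'
  · have := el_ck_of_lt (U := U) h'
    rw [h] at this
    exact absurd this (not_el_self U _)

theorem el_ck {U : Ultra B} {a b : OT l} : El l U (ck U b) (ck U a) ↔ b < a := by
  refine ⟨fun h => ?_, el_ck_of_lt⟩
  refine wlog_ck _ a U h ?_
  intro U c hc e
  rwa [ck_inj e]

theorem ck_trans {U : Ultra B} {a : OT l} (x y : Md l U) (hy : El l U y x)
    (hx : El l U x (ck U a)) : El l U y (ck U a) := by
  obtain ⟨X, rfl⟩ := cls_surj x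
  obtain ⟨Y, rfl⟩ := cls_surj y
  revert hy
  refine wlog_ck X a U hx ?_
  intro U b hb e hy
  rw [e] at hy
  refine wlog_ck Y b U hy ?_
  intro U c hc e
  rw [e]
  exact el_ck_of_lt (hc.trans hb)

theorem isOrd_ck (U : Ultra B) (a : OT l) : IsOrd (El l U) (ck U a) := by
  refine ⟨ck_trans, fun x y z hz hy hx => ?_⟩
  obtain ⟨X, rfl⟩ := cls_surj x
  revert y z
  refine wlog_ck X a U hx ?_
  intro U b _ e y z hz hy
  rw [e] at hy ⊢
  exact ck_trans _ _ hz hy

theorem sub_ck {U : Ultra B} {a b : OT l} : Sub (El l U) (ck U a) (ck U b) ↔ a ≤ b := by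
  constructor
  · intro h
    by_contra hn
    exact lt_irrefl b (el_ck.mp (h _ (el_ck_of_lt (not_le.mp hn))))
  · intro h z hz
    rcases h.lt_or_eq with h | rfl
    · exact ck_trans _ _ hz (el_ck_of_lt h)
    · exact hz

theorem exists_ck_bound (x : SName B l) : ∃ a : OT l, ∀ U b, ck U b = sm U x → b < a := by
  induction x using SName.ind with
  | h x ih =>
    choose f hf using ih
    obtain ⟨a, -, ha⟩ := exists_bound hl.out.isRegular le_rfl x.card_idx f fun i => cd_lt _
    refine ⟨Order.succ a, fun U b e => Order.lt_succ_of_le (le_of_not_gt fun h => ?_)⟩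
    have : El l U (ck U a) (sm U x) := e ▸ el_ck_of_lt h
    clear e
    refine wlog_mem _ x U this ?_
    intro U i _ e
    exact lt_asymm (ha i) (hf i U a e)

theorem ord_eq_ck (x : SName B l) :
    ∀ U, IsOrd (El l U) (sm U x) → ⨆ a : OT l, x.eq (chk B a) ∈ U := by
  induction x using SName.ind with
  | h x ih =>
    intro U hx
    choose f hf using fun i => exists_ck_bound (x.fn i)
    obtain ⟨a, -, ha⟩ := exists_bound hl.out.isRegular le_rfl x.card_idx f fun i => cd_lt _
    have h1 : ((chk B a).mem x)ᶜ ∈ U := by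
      rw [Ultra.compl_mem, ← el_sm]
      intro h
      clear hx
      refine wlog_mem _ x U h ?_
      intro U i _ e
      exact lt_asymm (ha i) (hf i U a e)
    have h2 := iSup_mem_of_mem (c := fun a : OT l => ((chk B a).mem x)ᶜ) a h1
    rw [iSup_eq_iSup_first (· < ·) wellFounded_lt] at h2
    clear h1
    revert hx
    refine wlog_sup _ U h2 ?_
    intro U c hc hx
    refine iSup_mem_of_mem c (sm_eq.mp (md_ext U _ _ fun z => ?_))
    obtain ⟨Z, rfl⟩ := cls_surj z
    constructor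
    · intro hz
      have hz' := hz
      revert hc hx hz'
      refine wlog_mem Z x U hz ?_
      intro U i _ e
      rw [e]
      clear e
      intro hc hx hz
      have h3 := ih i U (hx.of_mem hz)
      revert hc hx hz
      refine wlog_sup _ U h3 ?_
      intro U d hd hc hx hz
      rw [sm_eq.mpr hd] at hz ⊢
      have hc1 := Ultra.compl_mem.mp (Ultra.inf_mem.mp hc).1
      rw [← el_sm] at hc1
      rcases lt_trichotomy d c with h | h | h
      · exact el_ck_of_lt h
      · exact absurd (h ▸ hz) hc1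
      · exact absurd (hx.1 _ _ (el_ck_of_lt h) hz) hc1
    · intro hz
      clear hx
      revert hc
      refine wlog_ck Z c U hz ?_
      intro U d hd e hc
      rw [e, el_sm]
      have := mem_of_iInf_mem (mem_of_iInf_mem (Ultra.inf_mem.mp hc).2 d) hd
      rwa [compl_compl] at this

/-- an ordinal of the extension may be assumed to be a ground model ordinal -/
@[elab_as_elim]
theorem wlog_ord {Φ : Ultra B → Prop} (X : HName B l) (U : Ultra B)
    (h : IsOrd (El l U) (cls U X)) [Dec Φ] (H : ∀ U a, cls U X = ck U a → Φ U) : Φ U := by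
  revert h
  refine wlog_small X U ?_
  intro U x e h
  rw [e] at h
  have := ord_eq_ck x U h
  clear h
  revert e
  refine wlog_sup _ U this ?_
  intro U a ha e
  exact H U a (e.trans (sm_eq.mpr ha))

theorem el_ck_succ {U : Ultra B} (a : OT l) (z : Md l U) :
    El l U z (ck U (Order.succ a)) ↔ El l U z (ck U a) ∨ z = ck U a := by
  obtain ⟨Z, rfl⟩ := cls_surj z
  constructor
  · intro h
    refine wlog_ck Z _ U h ?_
    intro U b hb e
    rw [e]
    rcases (Order.le_of_lt_succ hb).lt_or_eq with h | h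
    · exact Or.inl (el_ck_of_lt h)
    · exact Or.inr (h ▸ rfl)
  · rintro (h | h)
    · exact ck_trans _ _ h (el_ck_of_lt (Order.lt_succ a))
    · rw [h]; exact el_ck_of_lt (Order.lt_succ a)

theorem not_el_ck_min {U : Ultra B} {a : OT l} (ha : ¬ ∃ b, b < a) (z : Md l U) :
    ¬ El l U z (ck U a) := by
  obtain ⟨Z, rfl⟩ := cls_surj z
  intro h
  refine wlog_ck Z _ U h ?_
  intro U b hb _
  exact ha ⟨b, hb⟩

theorem isOmega_ck (U : Ultra B) : IsOmega (El l U) (ck U (oc l ℵ₀)) := by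
  have h0 : (0 : Cardinal.{u}) < l := hl.out.pos
  refine ⟨⟨⟨ck U (oc l 0), el_ck_of_lt ((oc_lt_oc h0 aleph0_lt_l).mpr aleph0_pos),
    not_el_ck_min ?_⟩, fun x hx => ?_⟩, fun w hw z hz => ?_⟩
  · rintro ⟨b, hb⟩
    simpa using (lt_oc h0).mp hb
  · obtain ⟨X, rfl⟩ := cls_surj x
    refine wlog_ck X _ U hx ?_
    intro U b hb e
    rw [e]
    refine ⟨ck U (Order.succ b), el_ck_of_lt ?_, el_ck_succ b⟩
    rw [lt_oc aleph0_lt_l] at hb ⊢
    rw [cd_succ]
    exact add_lt_aleph0 hb one_lt_aleph0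
  · obtain ⟨Z, rfl⟩ := cls_surj z
    obtain ⟨W, rfl⟩ := cls_surj w
    revert hw
    refine wlog_ck Z _ U hz ?_
    intro U b hb e hw
    rw [e]
    clear e
    rw [lt_oc aleph0_lt_l] at hb
    induction b using WellFoundedLT.induction with
    | ind b ih =>
      by_cases hne : ∃ c, c < b
      · obtain ⟨c, rfl⟩ := exists_succ_of_finite hb hne
        obtain ⟨y, hy, hy'⟩ := hw.2 _ (ih c (Order.lt_succ c)
          ((cd_mono (Order.le_succ c)).trans_lt hb))
        rwa [md_ext U (ck U (Order.succ c)) y fun z => (el_ck_succ c z).trans (hy' z).symm]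
      · obtain ⟨e, he, he'⟩ := hw.1
        rwa [md_ext U (ck U b) e fun z => iff_of_false (not_el_ck_min hne z) (he' z)]

/-- `Md l U` is a model of ZFC. -/
theorem md_modelZFC (hT : Tame B l) (U : Ultra B) : ModelZFC (El l U) :=
  modelZFC hT U ⟨_, (isOmega_ck U).1⟩

def kpName (x y : SName B l) : SName B l := upairName (upairName x x) (upairName x y)

theorem isKPair_kpName (U : Ultra B) (x y : SName B l) :
    IsKPair (El l U) (sm U (kpName x y)) (sm U x) (sm U y) := by
  intro z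
  rw [kpName, isUPair_upairName U (upairName x x) (upairName x y) z]
  refine or_congr ⟨?_, fun h => ?_⟩ ⟨?_, fun h => ?_⟩
  · rintro rfl; exact isUPair_upairName U x x
  · exact md_ext U _ _ fun w => (h w).trans (isUPair_upairName U x x w).symm
  · rintro rfl; exact isUPair_upairName U x y
  · exact md_ext U _ _ fun w => (h w).trans (isUPair_upairName U x y w).symm

/-- the name of a relation given by Boolean values on pairs of names -/
def relName {J : Type u} (hJ : #J < l) (x y : J → SName B l) (v : J → B) : SName B l :=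
  SName.mk J hJ (fun j => kpName (x j) (y j)) v

theorem maps_relName {J : Type u} (hJ : #J < l) (x y : J → SName B l) (v : J → B) {U : Ultra B}
    (j : J) (h : v j ∈ U) : Maps (El l U) (sm U (relName hJ x y v)) (sm U (x j)) (sm U (y j)) :=
  ⟨_, mem_mk hJ (fun j => kpName (x j) (y j)) v j h, isKPair_kpName U _ _⟩

@[elab_as_elim]
theorem wlog_rel {Φ : Ultra B → Prop} (X Y : HName B l) {J : Type u} (hJ : #J < l)
    (x y : J → SName B l) (v : J → B) (U : Ultra B)
    (h : Maps (El l U) (sm U (relName hJ x y v)) (cls U X) (cls U Y)) [Dec Φ]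
    (H : ∀ U j, v j ∈ U → cls U X = sm U (x j) → cls U Y = sm U (y j) → Φ U) : Φ U := by
  obtain ⟨p, hp, hp'⟩ := h
  obtain ⟨P, rfl⟩ := cls_surj p
  revert hp'
  refine wlog_mk P hJ _ _ U hp ?_
  intro U j hj e hp'
  rw [e] at hp'
  obtain ⟨h1, h2⟩ := IsKPair.uniq (md_pair U) hp' (isKPair_kpName U _ _)
  exact H U j hj h1 h2

/-- the ground model set `J` is forced to inject into the ordinal `k` -/
def Coll (B : Type u) [CompleteBooleanAlgebra B] (J : Type u) (k : OT l) : Prop :=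
  ∃ v : J → OT l → B, (∀ j j' d, j ≠ j' → v j d ⊓ v j' d = ⊥) ∧ ∀ j, ⨆ d : Iio k, v j d = ⊤

theorem inj_of_cover {J : Type u} (hJ : #J < l) {k : OT l} (hc : Coll B J k) (y : J → SName B l)
    (X : HName B l) (U : Ultra B)
    (h : ∀ Z, El l U (cls U Z) (cls U X) → ⨆ j, HName.eq Z (HName.emb (y j)) ∈ U) :
    Inj (El l U) (cls U X) (ck U k) := by
  obtain ⟨v, hv1, hv2⟩ := hc
  obtain ⟨_, hwf⟩ := exists_wellFoundedLT J
  have hP : #(J × Iio k) < l := prod_lt_l hJ (cd_lt k)
  let val : J × Iio k → B := fun q => (⨅ j', ⨅ (_ : j' < q.1), ((y q.1).eq (y j'))ᶜ) ⊓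
    (v q.1 q.2 ⊓ ⨅ d' : Iio k, ⨅ (_ : d' < q.2), (v q.1 d')ᶜ)
  refine ⟨sm U (relName hP (fun q => y q.1) (fun q => chk B q.2.1) val), ?_, ?_, ?_⟩
  · intro z hz
    obtain ⟨Z, rfl⟩ := cls_surj z
    have h1 := h Z hz
    rw [iSup_eq_iSup_first (· < ·) hwf.wf] at h1
    clear h hz
    refine wlog_sup _ U h1 ?_
    intro U j hj
    have h2 : ⨆ d : Iio k, v j d ∈ U := by rw [hv2]; exact U.top_mem
    rw [iSup_eq_iSup_first (· < ·) wellFounded_lt] at h2
    revert hj
    refine wlog_sup _ U h2 ?_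
    intro U d hd hj
    refine ⟨ck U d.1, el_ck_of_lt d.2, ?_⟩
    rw [cls_eq.mpr (Ultra.inf_mem.mp hj).1]
    refine maps_relName hP (fun q => y q.1) (fun q => chk B q.2.1) val (j, d)
      (Ultra.inf_mem.mpr ⟨?_, hd⟩)
    refine iInf_mem_of (Φ := fun U => HName.eq Z (HName.emb (y j)) ⊓
      ⨅ j', ⨅ (_ : j' < j), (HName.eq Z (HName.emb (y j')))ᶜ ∈ U) (fun j' U hj => ?_) U hj
    by_cases hlt : j' < j
    · rw [iInf_pos hlt, Ultra.compl_mem, ← sm_eq]
      show ¬ cls U (HName.emb (y j)) = _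
      rw [← cls_eq.mpr (Ultra.inf_mem.mp hj).1, cls_eq]
      exact Ultra.compl_mem.mp (mem_of_iInf_mem (mem_of_iInf_mem (Ultra.inf_mem.mp hj).2 j') hlt)
    · rw [iInf_neg hlt]; exact U.top_mem
  · intro x z z' h1 h2
    obtain ⟨X, rfl⟩ := cls_surj x
    obtain ⟨Z, rfl⟩ := cls_surj z
    obtain ⟨Z', rfl⟩ := cls_surj z'
    clear h
    revert h2
    refine wlog_rel X Z hP _ _ _ U h1 ?_
    rintro U ⟨j, d⟩ hq e1 e2 h2
    revert hq e1 e2
    refine wlog_rel X Z' hP _ _ _ U h2 ?_
    rintro U ⟨j', d'⟩ hq' e1' e2' hq e1 e2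
    obtain ⟨a1, a2⟩ := Ultra.inf_mem.mp hq
    obtain ⟨a2, a3⟩ := Ultra.inf_mem.mp a2
    obtain ⟨b1, b2⟩ := Ultra.inf_mem.mp hq'
    obtain ⟨b2, b3⟩ := Ultra.inf_mem.mp b2
    obtain rfl : j = j' := by
      rcases lt_trichotomy j j' with h | h | h
      · exact absurd (sm_eq.mp (e1'.symm.trans e1))
          (Ultra.compl_mem.mp (mem_of_iInf_mem (mem_of_iInf_mem b1 j) h))
      · exact h
      · exact absurd (sm_eq.mp (e1.symm.trans e1'))
          (Ultra.compl_mem.mp (mem_of_iInf_mem (mem_of_iInf_mem a1 j') h))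
    obtain rfl : d = d' := by
      rcases lt_trichotomy d d' with h | h | h
      · exact absurd a2 (Ultra.compl_mem.mp (mem_of_iInf_mem (mem_of_iInf_mem b3 d) h))
      · exact h
      · exact absurd b2 (Ultra.compl_mem.mp (mem_of_iInf_mem (mem_of_iInf_mem a3 d') h))
    exact e2.trans e2'.symm
  · intro x x' z h1 h2
    obtain ⟨X, rfl⟩ := cls_surj x
    obtain ⟨X', rfl⟩ := cls_surj x'
    obtain ⟨Z, rfl⟩ := cls_surj z
    clear h
    revert h2
    refine wlog_rel X Z hP _ _ _ U h1 ?_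
    rintro U ⟨j, d⟩ hq e1 e2 h2
    revert hq e1 e2
    refine wlog_rel X' Z hP _ _ _ U h2 ?_
    rintro U ⟨j', d'⟩ hq' e1' e2' hq e1 e2
    have hd : d.1 = d'.1 := ck_inj (e2.symm.trans e2')
    have a2 : v j d.1 ∈ U := (Ultra.inf_mem.mp (Ultra.inf_mem.mp hq).2).1
    have b2 : v j' d.1 ∈ U := hd ▸ (Ultra.inf_mem.mp (Ultra.inf_mem.mp hq').2).1
    obtain rfl : j = j' := by
      by_contra hne
      exact Ultra.ne_bot (Ultra.inf_mem.mpr ⟨a2, b2⟩) (hv1 j j' _ hne)
    exact e1.trans e1'.symm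

/-- the name of a ground model set of ordinals -/
noncomputable def setName (s : Set (OT l)) (h : #s < l) : SName B l :=
  SName.mk s h (fun a => chk B a.1) (fun _ => ⊤)

omit hl in
theorem el_setName_of_mem {U : Ultra B} {s : Set (OT l)} (h : #s < l) {a : OT l} (ha : a ∈ s) :
    El l U (ck U a) (sm U (setName s h)) :=
  mem_mk h (fun a : s => chk B a.1) (fun _ => ⊤) ⟨a, ha⟩ U.top_mem

@[elab_as_elim]
theorem wlog_set {Φ : Ultra B → Prop} (Z : HName B l) (s : Set (OT l)) (hs : #s < l) (U : Ultra B)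
    (h : El l U (cls U Z) (sm U (setName s hs))) [Dec Φ]
    (H : ∀ U a, a ∈ s → cls U Z = ck U a → Φ U) : Φ U :=
  wlog_mk Z hs _ _ U h fun U a _ e => H U a.1 a.2 e

omit hl in
theorem chk_eq_setName (a : OT l) : chk B a = setName (Iio a) (cd_lt a) := chk_eq a

/-- no condition forces an injection of the ordinal `k` into the ground model set `s` -/
def NoInj (B : Type u) [CompleteBooleanAlgebra B] (k : OT l) (s : Set (OT l)) : Prop :=
  ∀ (b : B) (v : OT l → OT l → B), (∀ c < k, b ≤ ⨆ d : s, v c d) →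
    (∀ c c' d, c ≠ c' → b ⊓ v c d ⊓ v c' d = ⊥) → b = ⊥

theorem not_inj_of_noInj {k : OT l} {s : Set (OT l)} (hs : #s < l) (h : NoInj B k s)
    (U : Ultra B) : ¬ Inj (El l U) (ck U k) (sm U (setName s hs)) := by
  rintro ⟨f, hf⟩
  obtain ⟨F, rfl⟩ := cls_surj f
  let Φ : Ultra B → Prop := fun U =>
    (∀ x, El l U x (ck U k) → ∃ y, El l U y (sm U (setName s hs)) ∧ Maps (El l U) (cls U F) x y) ∧
    (∀ x x' y, Maps (El l U) (cls U F) x y → Maps (El l U) (cls U F) x' y → x = x')
  have : Dec Φ := by unfold Φ; infer_instance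
  refine Ultra.ne_bot ((bv_mem (Φ := Φ)).mpr ⟨hf.1, hf.2.2⟩) (h _
    (fun c d => bv (fun U => Maps (El l U) (cls U F) (ck U c) (ck U d))) ?_ ?_)
  · intro c hc
    refine bv_le fun U hU => ?_
    obtain ⟨y, hy1, hy2⟩ := hU.1 _ (el_ck_of_lt hc)
    obtain ⟨Y, rfl⟩ := cls_surj y
    clear hU
    revert hy2
    refine wlog_set Y s hs U hy1 ?_
    intro U d hd e hy2
    exact iSup_mem_of_mem (⟨d, hd⟩ : s) (bv_mem.mpr (e ▸ hy2))
  · intro c c' d hne
    refine Ultra.eq_bot_of_forall fun U hU => ?_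
    rw [Ultra.inf_mem, Ultra.inf_mem, bv_mem, bv_mem, bv_mem] at hU
    exact hne (ck_inj (hU.1.1.2 _ _ _ hU.1.2 hU.2))

/-- the name of a subset of `k` with prescribed Boolean values -/
noncomputable def valName (k : OT l) (f : OT l → B) : SName B l :=
  SName.mk (Iio k) (cd_lt k) (fun a => chk B a.1) (fun a => f a.1)

@[elab_as_elim]
theorem wlog_val {Φ : Ultra B → Prop} (Z : HName B l) (k : OT l) (f : OT l → B) (U : Ultra B)
    (h : El l U (cls U Z) (sm U (valName k f))) [Dec Φ]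
    (H : ∀ U a, a < k → f a ∈ U → cls U Z = ck U a → Φ U) : Φ U :=
  wlog_mk Z (cd_lt k) _ _ U h fun U a ha e => H U a.1 a.2 ha e

theorem el_valName {U : Ultra B} {k a : OT l} {f : OT l → B} :
    El l U (ck U a) (sm U (valName k f)) ↔ a < k ∧ f a ∈ U := by
  refine ⟨fun h => ?_, fun h => mem_mk (cd_lt k) (fun a : Iio k => chk B a.1) _ ⟨a, h.1⟩ h.2⟩
  refine wlog_val _ k f U h ?_
  intro U b hb hf e
  rw [ck_inj e]
  exact ⟨hb, hf⟩

theorem valName_sub (U : Ultra B) (k : OT l) (f : OT l → B) :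
    Sub (El l U) (sm U (valName k f)) (ck U k) := by
  intro z hz
  obtain ⟨Z, rfl⟩ := cls_surj z
  refine wlog_val Z k f U hz ?_
  intro U a ha _ e
  rw [e]; exact el_ck_of_lt ha

/-- two subsets of `k` agreeing on all ordinals below `k`, uniformly below a condition, are equal -/
theorem eq_of_sub_ck (X Y : HName B l) (k : OT l) (b : B)
    (h : ∀ a < k, ∀ U, b ∈ U → (El l U (ck U a) (cls U X) ↔ El l U (ck U a) (cls U Y)))
    (U : Ultra B) (hb : b ∈ U) (hX : Sub (El l U) (cls U X) (ck U k))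
    (hY : Sub (El l U) (cls U Y) (ck U k)) : cls U X = cls U Y := by
  refine md_ext U _ _ fun z => ?_
  obtain ⟨Z, rfl⟩ := cls_surj z
  by_cases hz : El l U (cls U Z) (ck U k)
  · clear hX hY
    revert hb
    refine wlog_ck Z k U hz ?_
    intro U a ha e hb
    rw [e]; exact h a ha U hb
  · exact iff_of_false (fun h => hz (hX _ h)) (fun h => hz (hY _ h))

end Pool.Agent.Shared.Forcing
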