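import Pool.Agent.Shared.Forcing.WO

/-! Ground model combinatorics: transfinite dependent choice, Easton's lemma, chain conditions. -/

namespace Pool.Agent.Shared.Forcing

open Cardinal Set

universe u v

theorem exists_seq {I : Type u} [LinearOrder I] [WellFoundedLT I] {X : Type v} (P : I → X → Prop)
    (R : I → X → I → X → Prop)
    (step : ∀ i (f : Iio i → X), (∀ j, P j.1 (f j)) →
      (∀ j k : Iio i, j.1 < k.1 → R j.1 (f j) k.1 (f k)) →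
      ∃ x, P i x ∧ ∀ j : Iio i, R j.1 (f j) i x) :
    ∃ f : I → X, (∀ i, P i (f i)) ∧ ∀ j k, j < k → R j (f j) k (f k) := by
  classical
  rcases isEmpty_or_nonempty I with hI | hI
  · exact ⟨isEmptyElim, isEmptyElim, isEmptyElim⟩
  obtain ⟨i₀, -, hi₀⟩ := (wellFounded_lt (α := I)).has_min univ univ_nonempty
  have : IsEmpty (Iio i₀) := ⟨fun j => hi₀ j.1 (mem_univ _) j.2⟩
  obtain ⟨x₀, -⟩ := step i₀ isEmptyElim isEmptyElim isEmptyElim
  let G : ∀ i, (∀ j, j < i → X) → X := fun i f =>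
    if h : ∃ x, P i x ∧ ∀ j : Iio i, R j.1 (f j.1 j.2) i x then h.choose else x₀
  let F : I → X := (wellFounded_lt (α := I)).fix G
  have hF : ∀ i, F i = G i (fun j _ => F j) := fun i => WellFounded.fix_eq _ _ _
  have key : ∀ i, P i (F i) ∧ ∀ j : Iio i, R j.1 (F j.1) i (F i) := by
    intro i
    induction i using WellFoundedLT.induction with
    | ind i ih =>
      have h := step i (fun j => F j.1) (fun j => (ih j.1 j.2).1)
        (fun j k hjk => (ih k.1 k.2).2 ⟨j.1, hjk⟩)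
      have e : F i = h.choose := (hF i).trans (dif_pos h)
      rw [e]
      exact h.choose_spec
  exact ⟨F, fun i => (key i).1, fun j k h => (key k).2 ⟨j, h⟩⟩

/-- chains of size less than `d` have lower bounds -/
def Closed {W : Type v} (d : Cardinal.{u}) (R : W → W → Prop) : Prop :=
  ∀ (Z : Type u) [LinearOrder Z] [Nonempty Z], #Z < d → ∀ f : Z → W,
    (∀ i j, i < j → R (f j) (f i)) → ∃ w, ∀ i, R w (f i)

theorem Closed.mono {W : Type v} {c d : Cardinal.{u}} {R : W → W → Prop} (h : Closed d R)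
    (hc : c ≤ d) : Closed c R := fun Z _ _ hZ => h Z (hZ.trans_le hc)

theorem Closed.bound {W : Type v} {d : Cardinal.{u}} {R : W → W → Prop} (h : Closed d R)
    (hr : ∀ w, R w w) (ht : ∀ a b c, R a b → R b c → R a c) {Z : Type u} [LinearOrder Z]
    (hZ : #Z < d) (f : Z → W) (hf : ∀ i j, i < j → R (f j) (f i)) (w₀ : W)
    (h₀ : ∀ i, R (f i) w₀) : ∃ w, R w w₀ ∧ ∀ i, R w (f i) := by
  rcases isEmpty_or_nonempty Z with hI | hI
  · exact ⟨w₀, hr _, isEmptyElim⟩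
  obtain ⟨w, hw⟩ := h Z hZ f hf
  exact ⟨w, ht _ _ _ (hw hI.some) (h₀ _), hw⟩

/-- the chain condition -/
def CC {L : Type u} (c : Cardinal.{u}) (Le : L → L → Prop) : Prop :=
  ∀ (ι : Type u) (f : ι → L), (∀ i j, i ≠ j → ¬ ∃ r, Le r (f i) ∧ Le r (f j)) → #ι < c

section Easton

variable {L : Type u} {W : Type v} {Le : L → L → Prop} {R : W → W → Prop} {c d : Cardinal.{u}}

theorem easton1 (hLt : ∀ a b c, Le a b → Le b c → Le a c) (hr : ∀ w, R w w)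
    (ht : ∀ a b c, R a b → R b c → R a c) (hcl : Closed c R) (hcc : CC c Le) (ℓ₀ : L)
    (D : L → W → Prop) (hD : ∀ ℓ w, Le ℓ ℓ₀ → ∃ ℓ' w', Le ℓ' ℓ ∧ R w' w ∧ D ℓ' w')
    (ho : ∀ ℓ w w', R w' w → D ℓ w → D ℓ w') (w : W) :
    ∃ w', R w' w ∧ ∃ S : Set L, #S < c ∧ (∀ s ∈ S, D s w') ∧
      ∀ ℓ, Le ℓ ℓ₀ → ∃ s ∈ S, ∃ r, Le r ℓ ∧ Le r s := by
  by_contra hn
  push Not at hn
  obtain ⟨f, hf1, hf2⟩ := exists_seq (I := OT c) (X := L × W)
    (fun _ x => R x.2 w ∧ D x.1 x.2)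
    (fun _ x _ y => R y.2 x.2 ∧ ¬ ∃ r, Le r x.1 ∧ Le r y.1) (by
      intro i f h1 h2
      obtain ⟨w', a1, a2⟩ := hcl.bound hr ht (cd_lt i) (fun j => (f j).2)
        (fun j k hjk => (h2 j k hjk).1) w fun j => (h1 j).1
      obtain ⟨ℓ, b1, b2⟩ := hn w' a1 (range fun j => (f j).1) (mk_range_le.trans_lt (cd_lt i))
        (by rintro _ ⟨j, rfl⟩; exact ho _ _ _ (a2 j) (h1 j).2)
      obtain ⟨ℓ', w'', c1, c2, c3⟩ := hD ℓ w' b1
      exact ⟨(ℓ', w''), ⟨ht _ _ _ c2 a1, c3⟩, fun j => ⟨ht _ _ _ c2 (a2 j),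
        fun ⟨r, d1, d2⟩ => b2 _ ⟨j, rfl⟩ r (hLt _ _ _ d2 c1) d1⟩⟩)
  have := hcc (OT c) (fun i => (f i).1) (by
    intro i j hij
    rcases lt_or_gt_of_ne hij with h | h
    · exact (hf2 i j h).2
    · exact fun ⟨r, h1, h2⟩ => (hf2 j i h).2 ⟨r, h2, h1⟩)
  simp at this

theorem easton (hLt : ∀ a b c, Le a b → Le b c → Le a c) (hr : ∀ w, R w w)
    (ht : ∀ a b c, R a b → R b c → R a c) (hcl : Closed d R) (hcd : c ≤ d) (hcc : CC c Le) (ℓ₀ : L)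
    {ι : Type u} (hι : #ι < d) (D : ι → L → W → Prop)
    (hD : ∀ i ℓ w, Le ℓ ℓ₀ → ∃ ℓ' w', Le ℓ' ℓ ∧ R w' w ∧ D i ℓ' w')
    (ho : ∀ i ℓ w w', R w' w → D i ℓ w → D i ℓ w') (w : W) :
    ∃ w', R w' w ∧ ∀ i, ∃ S : Set L, #S < c ∧ (∀ s ∈ S, D i s w') ∧
      ∀ ℓ, Le ℓ ℓ₀ → ∃ s ∈ S, ∃ r, Le r ℓ ∧ Le r s := by
  obtain ⟨_, hwf⟩ := exists_wellFoundedLT ι
  obtain ⟨f, hf1, hf2⟩ := exists_seq (I := ι) (X := W)
    (fun i x => R x w ∧ ∃ S : Set L, #S < c ∧ (∀ s ∈ S, D i s x) ∧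
      ∀ ℓ, Le ℓ ℓ₀ → ∃ s ∈ S, ∃ r, Le r ℓ ∧ Le r s)
    (fun _ x _ y => R y x) (by
      intro i f h1 h2
      obtain ⟨w', a1, a2⟩ := hcl.bound hr ht ((mk_set_le _).trans_lt hι) f h2 w fun j => (h1 j).1
      obtain ⟨w'', b1, b2⟩ := easton1 hLt hr ht (hcl.mono hcd) hcc ℓ₀ (D i) (hD i) (ho i) w'
      exact ⟨w'', ⟨ht _ _ _ b1 a1, b2⟩, fun j => ht _ _ _ b1 (a2 j)⟩)
  obtain ⟨w', a1, a2⟩ := hcl.bound hr ht hι f hf2 w fun j => (hf1 j).1
  refine ⟨w', a1, fun i => ?_⟩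
  obtain ⟨S, b1, b2, b3⟩ := (hf1 i).2
  exact ⟨S, b1, fun s hs => ho _ _ _ _ (a2 i) (b2 s hs), b3⟩

end Easton

theorem cc_of_card {L : Type u} {Le : L → L → Prop} {c : Cardinal.{u}} (π : L → L)
    (h1 : ∀ p, Le (π p) p) (h2 : #(range π) < c) : CC c Le := by
  intro ι f hf
  refine lt_of_le_of_lt (mk_le_of_injective (f := fun i => (⟨π (f i), _, rfl⟩ : range π)) ?_) h2
  intro i j e
  by_contra hne
  have e : π (f i) = π (f j) := congrArg Subtype.val e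
  exact hf i j hne ⟨_, h1 _, e ▸ h1 _⟩

theorem cc_of_res {l : Cardinal.{u}} {P : Type u} {Le : P → P → Prop} (hr : ∀ p, Le p p)
    (ht : ∀ a b c, Le a b → Le b c → Le a c) {c m : Cardinal.{u}} (hc : c.IsRegular) (hcl : c ≤ l)
    (hm : m.IsRegular) (hmc : m < c) (supp : P → Set (OT l)) (res : Set (OT l) → P → P)
    (hs1 : ∀ p, #(supp p) < m) (hs2 : ∀ p, ∀ γ ∈ supp p, cd γ < c)
    (r1 : ∀ X p, Le p (res X p)) (r2 : ∀ X p, supp p ⊆ X → Le (res X p) p)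
    (r3 : ∀ X s p, Le s p → Le (res X s) (res X p))
    (r4 : ∀ X s p, Le (res X s) (res X p) → ∃ r, Le r (res X s) ∧ Le r p)
    (r5 : ∀ X Y p, supp p ∩ X = supp p ∩ Y → res X p = res Y p)
    (r6 : ∀ α, cd α < c → #(range (res (Iio α))) < c)
    (r7 : ∀ X p, res X (res X p) = res X p) : CC c Le := by
  intro ι f hf
  by_contra hι
  have hnx : ∀ α : OT l, cd α < c → ∃ β, cd β < c ∧ α < β ∧ ∀ p,
      (∃ i s, Le s (res (Iio α) p) ∧ Le s (f i)) →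
      ∃ i, (∃ s, Le s (res (Iio α) p) ∧ Le s (f i)) ∧ supp (f i) ⊆ Iio β := by
    intro α hα
    let T := {r : range (res (Iio α)) // ∃ i s, Le s r.1 ∧ Le s (f i)}
    have hT : #T < c := (mk_subtype_le _).trans_lt (r6 α hα)
    obtain ⟨β, b1, b2⟩ := exists_bound_set hc hcl
      (s := insert α (⋃ r : T, supp (f r.2.choose))) (by
        refine (mk_insert_le).trans_lt (add_lt_of_lt hc.aleph0_le ?_
          (one_lt_aleph0.trans_le hc.aleph0_le))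
        exact (mk_iUnion_le_sum_mk).trans_lt (sum_lt_of_isRegular hc hT
          fun r => (hs1 _).trans hmc)) (by
        rintro a (rfl | ha)
        · exact hα
        · obtain ⟨r, hr⟩ := mem_iUnion.mp ha
          exact hs2 _ _ hr)
    refine ⟨β, b1, b2 α (mem_insert _ _), fun p hp => ?_⟩
    let r : T := ⟨⟨_, p, rfl⟩, hp⟩
    exact ⟨r.2.choose, r.2.choose_spec, fun γ hγ =>
      b2 γ (mem_insert_of_mem _ (mem_iUnion.mpr ⟨r, hγ⟩))⟩
  choose nx hnx1 hnx2 hnx3 using hnx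
  obtain ⟨α, -, hα⟩ := exists_seq (I := OT m) (X := {α : OT l // cd α < c}) (fun _ _ => True)
    (fun _ x _ y => nx x.1 x.2 ≤ y.1) (by
      intro i g _ _
      obtain ⟨β, b1, b2⟩ := exists_bound hc hcl ((cd_lt i).trans hmc)
        (fun j => nx (g j).1 (g j).2) fun j => hnx1 _ _
      exact ⟨⟨β, b1⟩, trivial, fun j => (b2 j).le⟩)
  obtain ⟨β, b1, b2⟩ := exists_bound hc hcl (ι := OT m) (by simpa using hmc) (fun j => (α j).1)
    fun j => (α j).2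
  let X : Set (OT l) := ⋃ j, Iio (α j).1
  have hX : X ⊆ Iio β := iUnion_subset fun j => Iio_subset_Iio (b2 j).le
  obtain ⟨i, hi⟩ : ∃ i, ¬ supp (f i) ⊆ Iio β := by
    by_contra hn
    push Not at hn
    refine hι (lt_of_le_of_lt (mk_le_of_injective (f := fun i =>
      (⟨res (Iio β) (f i), _, rfl⟩ : range (res (Iio β)))) ?_) (r6 β b1))
    intro i j e
    by_contra hne
    have e : res (Iio β) (f i) = res (Iio β) (f j) := congrArg Subtype.val e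
    exact hf i j hne ⟨_, r2 _ _ (hn i), e ▸ r2 _ _ (hn j)⟩
  have hch : ∀ γ : (supp (f i) ∩ X : Set (OT l)), ∃ j, γ.1 < (α j).1 := fun γ =>
    mem_iUnion.mp γ.2.2
  choose ζ hζ using hch
  obtain ⟨j₀, -, hj₀⟩ := exists_bound hm le_rfl
    ((mk_le_mk_of_subset inter_subset_left).trans_lt (hs1 _)) ζ fun γ => cd_lt _
  obtain ⟨j₁, -, hj₁⟩ := exists_gt_cd_lt hm le_rfl (cd_lt j₀)
  have e : res X (f i) = res (Iio (α j₀).1) (f i) := by
    refine r5 _ _ _ (Subset.antisymm (fun γ hγ => ⟨hγ.1, ?_⟩)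
      (inter_subset_inter_right _ (subset_iUnion (fun j => Iio (α j).1) j₀)))
    exact (hζ ⟨γ, hγ⟩).trans ((hnx2 _ _).trans_le (hα _ _ (hj₀ _)))
  obtain ⟨k, ⟨s, s1, s2⟩, hk⟩ := hnx3 _ (α j₀).2 (f i) ⟨i, f i, r1 _ _, hr _⟩
  have hkX : supp (f k) ⊆ X := hk.trans ((Iio_subset_Iio (hα _ _ hj₁)).trans
    (subset_iUnion (fun j => Iio (α j).1) j₁))
  rw [← e] at s1
  have := r3 X _ _ s1
  rw [r7] at this
  obtain ⟨r, t1, t2⟩ := r4 X s _ this
  by_cases hik : i = k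
  · exact hi (hik ▸ hkX.trans hX)
  · exact hf i k hik ⟨r, t2, ht _ _ _ t1 (ht _ _ _ (r3 X _ _ s2) (r2 _ _ hkX))⟩

end Pool.Agent.Shared.Forcing
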