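import Pool.Agent.Shared.Forcing.Cards
import Pool.Agent.Shared.Forcing.Comb

/-! The factorisation property from a product-like decomposition of a poset. -/

namespace Pool.Agent.Shared.Forcing

open Cardinal Set

universe u

/-- a product-like decomposition of a preorder into a lower and an upper part -/
structure Cut (P : Type u) [Preorder P] where
  Low : P → P → Prop
  Up : P → P → Prop
  comb : P → P → P
  low : P → P
  low_refl : ∀ p, Low p p
  low_trans : ∀ a b c, Low a b → Low b c → Low a c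
  up_refl : ∀ p, Up p p
  up_trans : ∀ a b c, Up a b → Up b c → Up a c
  comb_mono : ∀ {a a' w w'}, Low a' a → Up w' w → comb a' w' ≤ comb a w
  low_of_le : ∀ {p a w}, p ≤ comb a w → Low p a
  up_of_le : ∀ {p a w}, p ≤ comb a w → ∃ w', Up w' w ∧ comb p w' ≤ p
  comb_self : ∀ p, comb p p ≤ p
  comb_le_low : ∀ a w, comb a w ≤ low a
  le_comb : ∀ {r a a' w}, r ≤ low a → r ≤ comb a' w → r ≤ comb a w

theorem Cut.fac {P : Type u} [Preorder P] (K : Cut P) {c : Cardinal.{u}} (hc : c.IsRegular)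
    (hcl : Closed c K.Up) (hcc : CC c K.Low) : Fac c (range fun p => RO.io (K.low p)) := by
  intro ι hι D h1 h2 b hb
  obtain ⟨p₀, hp₀⟩ := RO.ne_bot_iff.mp hb
  obtain ⟨w, hw, H⟩ := easton K.low_trans K.up_refl K.up_trans hcl le_rfl hcc p₀ hι
    (fun i a w => RO.io (K.comb a w) ∈ D i) (by
      intro i a w _
      obtain ⟨b', a1, a2, a3⟩ := h1 i _ (RO.io_ne_bot (K.comb a w))
      obtain ⟨q, hq⟩ := RO.ne_bot_iff.mp a2
      obtain ⟨r, r1, r2⟩ := RO.mem_io.mp (a1 q hq) q le_rfl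
      obtain ⟨w', b1, b2⟩ := K.up_of_le r2
      exact ⟨r, w', K.low_of_le r2, b1,
        h2 i _ _ (RO.io_le.mpr (RO.mono hq (b2.trans r1))) a3⟩)
    (fun i a w w' hw h => h2 i _ _ (RO.io_mono (K.comb_mono (K.low_refl a) hw)) h) p₀
  choose S hS1 hS2 hS3 using H
  refine ⟨RO.io (K.comb p₀ w), RO.io_le.mpr (RO.mono hp₀
    ((K.comb_mono (K.low_refl _) hw).trans (K.comb_self _))), RO.io_ne_bot _,
    ⋃ i, (fun p => RO.io (K.low p)) '' S i, iUnion_subset fun i => image_subset_range _ _,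
    mk_iUnion_le_sum_mk.trans_lt (sum_lt_of_isRegular hc hι fun i => mk_image_le.trans_lt (hS1 i)),
    fun i => RO.io_le.mpr (RO.mem_iSup.mpr fun q hq => ?_)⟩
  obtain ⟨s, s1, r, r1, r2⟩ := hS3 i q (K.low_of_le hq)
  obtain ⟨w', b1, b2⟩ := K.up_of_le hq
  refine ⟨K.comb r w', (K.comb_mono r1 (K.up_refl _)).trans b2, ⟨RO.io (K.low s),
    mem_iUnion.mpr ⟨i, s, s1, rfl⟩, h2 i _ _ ?_ (hS2 i s s1)⟩,
    RO.mem_io_of_le ((K.comb_mono r2 (K.up_refl _)).trans (K.comb_le_low _ _))⟩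
  intro t ht
  rw [RO.mem_inf] at ht
  refine RO.mem_io.mpr fun t' ht' => ?_
  obtain ⟨r₁, c1, c2⟩ := RO.mem_io.mp ht.1 t' ht'
  obtain ⟨r₂, c3, c4⟩ := RO.mem_io.mp ht.2 r₁ (c1.trans ht')
  exact ⟨r₂, c3.trans c1, K.le_comb (c3.trans c2) c4⟩

end Pool.Agent.Shared.Forcing
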