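import Mathlib

/-! First-order formulas of set theory, their satisfaction in a structure `(M, E)`,
models of ZFC, and the usual set-theoretic notions read inside such a structure. -/

namespace Pool.Agent.Shared.Forcing

universe u

/-- Formulas of the language of set theory; variables are natural numbers. -/
inductive Fml : Type
  | mem : ℕ → ℕ → Fml
  | eq : ℕ → ℕ → Fml
  | neg : Fml → Fml
  | conj : Fml → Fml → Fml
  | all : ℕ → Fml → Fml

variable {M : Type u} (E : M → M → Prop)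

/-- Tarski satisfaction; `E x y` interprets `x ∈ y`. -/
def Sat : Fml → (ℕ → M) → Prop
  | Fml.mem i j, v => E (v i) (v j)
  | Fml.eq i j, v => v i = v j
  | Fml.neg φ, v => ¬ Sat φ v
  | Fml.conj φ ψ, v => Sat φ v ∧ Sat ψ v
  | Fml.all i φ, v => ∀ x, Sat φ (Function.update v i x)

/-- `w` contains the empty set and is closed under `x ↦ x ∪ {x}`. -/
def IsInductive (w : M) : Prop :=
  (∃ e, E e w ∧ ∀ z, ¬ E z e) ∧ ∀ x, E x w → ∃ y, E y w ∧ ∀ z, E z y ↔ E z x ∨ z = x

/-- `(M, E)` is a model of ZFC (both schemas for all formulas with parameters). -/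
structure ModelZFC : Prop where
  extensionality : ∀ a b, (∀ z, E z a ↔ E z b) → a = b
  foundation : ∀ a, (∃ z, E z a) → ∃ y, E y a ∧ ∀ z, E z y → ¬ E z a
  pairing : ∀ x y, ∃ p, ∀ z, E z p ↔ z = x ∨ z = y
  union : ∀ a, ∃ s, ∀ z, E z s ↔ ∃ y, E y a ∧ E z y
  powerset : ∀ a, ∃ p, ∀ z, E z p ↔ ∀ w, E w z → E w a
  infinity : ∃ w, IsInductive E w
  separation : ∀ (φ : Fml) (v : ℕ → M) (a : M),
    ∃ b, ∀ z, E z b ↔ E z a ∧ Sat E φ (Function.update v 0 z)
  replacement : ∀ (φ : Fml) (v : ℕ → M) (a : M),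
    (∀ x, E x a → ∃! y, Sat E φ (Function.update (Function.update v 0 x) 1 y)) →
    ∃ b, ∀ y, E y b ↔ ∃ x, E x a ∧ Sat E φ (Function.update (Function.update v 0 x) 1 y)
  choice : ∀ a, (∀ x, E x a → ∃ z, E z x) →
    (∀ x y z, E x a → E y a → E z x → E z y → x = y) →
    ∃ c, ∀ x, E x a → ∃! z, E z x ∧ E z c

/-- `a ⊆ b` -/
def Sub (a b : M) : Prop := ∀ z, E z a → E z b

/-- `p = {x, y}` -/
def IsUPair (p x y : M) : Prop := ∀ z, E z p ↔ z = x ∨ z = y

/-- `p = {{x}, {x, y}}` -/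
def IsKPair (p x y : M) : Prop := ∀ z, E z p ↔ IsUPair E z x x ∨ IsUPair E z x y

/-- `(x, y) ∈ f` -/
def Maps (f x y : M) : Prop := ∃ p, E p f ∧ IsKPair E p x y

/-- `|a| ≤ |b|`: some set `f` is an injective function defined on `a` with values in `b` there. -/
def Inj (a b : M) : Prop :=
  ∃ f, (∀ x, E x a → ∃ y, E y b ∧ Maps E f x y) ∧
    (∀ x y y', Maps E f x y → Maps E f x y' → y = y') ∧
    (∀ x x' y, Maps E f x y → Maps E f x' y → x = x')

/-- von Neumann ordinal: a transitive set of transitive sets -/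
def IsOrd (a : M) : Prop :=
  (∀ x y, E y x → E x a → E y a) ∧ ∀ x y z, E z y → E y x → E x a → E z x

/-- cardinal: an ordinal that does not inject into a smaller ordinal -/
def IsCard (k : M) : Prop := IsOrd E k ∧ ∀ a, E a k → ¬ Inj E k a

/-- `w = ω`, the least inductive set -/
def IsOmega (w : M) : Prop := IsInductive E w ∧ ∀ w', IsInductive E w' → Sub E w w'

/-- `k' = k⁺`, the least cardinal above `k` -/
def IsSucc (k k' : M) : Prop :=
  IsCard E k' ∧ E k k' ∧ ∀ c, IsCard E c → E k c → Sub E k' c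

/-- `k = ℵ_n` -/
def IsAleph : ℕ → M → Prop
  | 0, k => IsOmega E k
  | n + 1, k => ∃ j, IsAleph n j ∧ IsSucc E j k

/-- GCH: `|P(k)| ≤ k⁺` for every infinite cardinal `k`. -/
def GCH : Prop :=
  ∀ w k k' p, IsOmega E w → IsCard E k → Sub E w k → IsSucc E k k' →
    (∀ z, E z p ↔ Sub E z k) → Inj E p k'

end Pool.Agent.Shared.Forcing
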