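import Pool.Agent.Shared.Forcing.Names
import Pool.Agent.Shared.Forcing.Defs

/-! The two-valued models `Md l U` obtained from ultrafilters, and the forcing principles. -/

namespace Pool.Agent.Shared.Forcing

open Cardinal

universe u v

variable {B : Type u} [CompleteBooleanAlgebra B] {l : Cardinal.{u}}

def mdSetoid (l : Cardinal.{u}) (U : Ultra B) : Setoid (HName B l) where
  r X Y := HName.eq X Y ∈ U
  iseqv := ⟨fun X => by rw [HName.eq_refl]; exact U.top_mem,
    fun {X Y} h => by rwa [HName.eq_symm],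
    fun {X Y Z} h1 h2 => Ultra.mono (Ultra.inf_mem.mpr ⟨h1, h2⟩) (HName.eq_trans X Y Z)⟩

/-- the generic extension along `U` -/
def Md (l : Cardinal.{u}) (U : Ultra B) : Type (u + 1) := Quotient (mdSetoid l U)

def cls (U : Ultra B) (X : HName B l) : Md l U := Quotient.mk _ X

def El (l : Cardinal.{u}) (U : Ultra B) : Md l U → Md l U → Prop :=
  Quotient.lift₂ (fun X Y => HName.mem X Y ∈ U) (by
    intro X Y X' Y' h1 h2
    apply propext
    constructor
    · intro h
      exact Ultra.mono (Ultra.inf_mem.mpr ⟨Ultra.inf_mem.mpr ⟨h1, h2⟩, h⟩) (HName.mem_congr _ _ _ _)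
    · intro h
      exact Ultra.mono (Ultra.inf_mem.mpr ⟨Ultra.inf_mem.mpr
        ⟨(mdSetoid l U).symm h1, (mdSetoid l U).symm h2⟩, h⟩) (HName.mem_congr _ _ _ _))

theorem cls_surj {U : Ultra B} (x : Md l U) : ∃ X, cls U X = x := Quotient.exists_rep x

theorem cls_eq {U : Ultra B} {X Y : HName B l} : cls U X = cls U Y ↔ HName.eq X Y ∈ U :=
  Quotient.eq

theorem el_cls {U : Ultra B} {X Y : HName B l} :
    El l U (cls U X) (cls U Y) ↔ HName.mem X Y ∈ U := Iff.rfl

attribute [irreducible] El cls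

/-- the class of a small name -/
abbrev sm (U : Ultra B) (x : SName B l) : Md l U := cls U (HName.emb x)

theorem sm_eq {U : Ultra B} {x y : SName B l} : sm U x = sm U y ↔ x.eq y ∈ U := by
  rw [cls_eq, HName.eq_emb_emb]

theorem el_sm {U : Ultra B} {x y : SName B l} : El l U (sm U x) (sm U y) ↔ x.mem y ∈ U := by
  rw [el_cls, HName.mem_emb_emb]

/-- A property of ultrafilters is decided if it has a Boolean value. -/
class Dec (Φ : Ultra B → Prop) : Prop where
  ex : ∃ b : B, ∀ U, Φ U ↔ b ∈ U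

/-- the Boolean value -/
noncomputable def bv (Φ : Ultra B → Prop) [h : Dec Φ] : B := h.ex.choose

theorem bv_mem {Φ : Ultra B → Prop} [h : Dec Φ] {U : Ultra B} : bv Φ ∈ U ↔ Φ U :=
  (h.ex.choose_spec U).symm

theorem le_bv {Φ : Ultra B → Prop} [Dec Φ] {b : B} (h : ∀ U, b ∈ U → Φ U) : b ≤ bv Φ :=
  Ultra.le_of_forall fun U hU => bv_mem.mpr (h U hU)

theorem bv_le {Φ : Ultra B → Prop} [Dec Φ] {b : B} (h : ∀ U, Φ U → b ∈ U) : bv Φ ≤ b :=
  Ultra.le_of_forall fun U hU => h U (bv_mem.mp hU)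

instance Dec.const (b : B) : Dec (fun U : Ultra B => b ∈ U) := ⟨b, fun _ => Iff.rfl⟩

instance (priority := low) Dec.prop (p : Prop) : Dec (fun _ : Ultra B => p) := by
  by_cases h : p
  · exact ⟨⊤, fun U => by simp [h, U.top_mem]⟩
  · exact ⟨⊥, fun U => by simp [h, U.bot_not_mem]⟩

instance Dec.el (X Y : HName B l) : Dec (fun U => El l U (cls U X) (cls U Y)) :=
  ⟨_, fun _ => el_cls⟩

instance Dec.eq (X Y : HName B l) : Dec (fun U => cls U X = cls U Y) := ⟨_, fun _ => cls_eq⟩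

instance Dec.and (Φ Ψ : Ultra B → Prop) [Dec Φ] [Dec Ψ] : Dec (fun U => Φ U ∧ Ψ U) :=
  ⟨bv Φ ⊓ bv Ψ, fun U => by rw [Ultra.inf_mem, bv_mem, bv_mem]⟩

instance Dec.or (Φ Ψ : Ultra B → Prop) [Dec Φ] [Dec Ψ] : Dec (fun U => Φ U ∨ Ψ U) :=
  ⟨bv Φ ⊔ bv Ψ, fun U => by rw [Ultra.sup_mem, bv_mem, bv_mem]⟩

instance Dec.not (Φ : Ultra B → Prop) [Dec Φ] : Dec (fun U => ¬ Φ U) :=
  ⟨(bv Φ)ᶜ, fun U => by rw [Ultra.compl_mem, bv_mem]⟩

instance Dec.imp (Φ Ψ : Ultra B → Prop) [Dec Φ] [Dec Ψ] : Dec (fun U => Φ U → Ψ U) :=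
  ⟨bv Φ ⇨ bv Ψ, fun U => by rw [Ultra.himp_mem, bv_mem, bv_mem]⟩

instance Dec.iff (Φ Ψ : Ultra B → Prop) [Dec Φ] [Dec Ψ] : Dec (fun U => Φ U ↔ Ψ U) :=
  ⟨bv (fun U => (Φ U → Ψ U) ∧ (Ψ U → Φ U)), fun U => by rw [bv_mem]; exact iff_def⟩

instance Dec.ne (X Y : HName B l) : Dec (fun U => cls U X ≠ cls U Y) :=
  Dec.not (fun U => cls U X = cls U Y)

/-- maximum principle, semantic form -/
theorem exists_witness [Nonempty (HName B l)] (Ψ : ∀ U : Ultra B, Md l U → Prop)
    [∀ X, Dec (fun U => Ψ U (cls U X))] : ∃ X, ∀ U, (∃ x, Ψ U x) → Ψ U (cls U X) := by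
  obtain ⟨X, hX⟩ := HName.exists_max (l := l) (fun X => bv (fun U => Ψ U (cls U X))) (by
    intro X Y
    apply le_bv
    intro U hU
    rw [Ultra.inf_mem, ← cls_eq, bv_mem] at hU
    exact hU.1 ▸ hU.2)
  refine ⟨X, fun U ⟨x, hx⟩ => ?_⟩
  obtain ⟨Y, rfl⟩ := cls_surj x
  exact bv_mem.mp (Ultra.mono ((bv_mem (Φ := fun U => Ψ U (cls U Y))).mpr hx) (hX Y))

instance Dec.exists [Nonempty (HName B l)] (Ψ : ∀ U : Ultra B, Md l U → Prop)
    [∀ X, Dec (fun U => Ψ U (cls U X))] : Dec (fun U => ∃ x, Ψ U x) := by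
  obtain ⟨X, hX⟩ := exists_witness Ψ
  exact ⟨bv (fun U => Ψ U (cls U X)), fun U => by rw [bv_mem]; exact ⟨hX U, fun h => ⟨_, h⟩⟩⟩

instance Dec.forall [Nonempty (HName B l)] (Ψ : ∀ U : Ultra B, Md l U → Prop)
    [∀ X, Dec (fun U => Ψ U (cls U X))] : Dec (fun U => ∀ x, Ψ U x) :=
  ⟨bv (fun U => ¬ ∃ x, ¬ Ψ U x), fun U => by rw [bv_mem]; simp⟩

instance Dec.existsUnique [Nonempty (HName B l)] (Ψ : ∀ U : Ultra B, Md l U → Prop)
    [∀ X, Dec (fun U => Ψ U (cls U X))] : Dec (fun U => ∃! x, Ψ U x) := by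
  unfold ExistsUnique
  infer_instance

/-- density principle -/
theorem of_dense {Φ : Ultra B → Prop} [Dec Φ] {b : B}
    (H : ∀ c ≤ b, c ≠ ⊥ → ∃ d ≤ c, d ≠ ⊥ ∧ ∀ U, d ∈ U → Φ U) (U : Ultra B) (hU : b ∈ U) : Φ U := by
  refine bv_mem.mp (Ultra.mono hU (le_of_dense fun c hc hc0 => ?_))
  obtain ⟨d, hd, hd0, h⟩ := H c hc hc0
  exact fun e => hd0 (le_bot_iff.mp ((le_inf hd (le_bv h)).trans e.le))

/-- a supremum in `U` may be assumed to be attained -/
@[elab_as_elim]
theorem wlog_sup {Φ : Ultra B → Prop} {κ : Sort v} (c : κ → B) (U : Ultra B) (h : ⨆ k, c k ∈ U)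
    [Dec Φ] (H : ∀ U k, c k ∈ U → Φ U) : Φ U :=
  bv_mem.mp (Ultra.mono h (iSup_le fun k => le_bv fun U hU => H U k hU))

theorem iInf_mem_of {Φ : Ultra B → Prop} [Dec Φ] {κ : Sort v} {c : κ → B}
    (H : ∀ k U, Φ U → c k ∈ U) (U : Ultra B) (h : Φ U) : ⨅ k, c k ∈ U :=
  Ultra.mono (bv_mem.mpr h) (le_iInf fun k => bv_le (H k))

theorem mem_of_iInf_mem {κ : Sort v} {c : κ → B} {U : Ultra B} (h : ⨅ k, c k ∈ U) (k : κ) :
    c k ∈ U := Ultra.mono h (iInf_le c k)

theorem iSup_mem_of_mem {κ : Sort v} {c : κ → B} {U : Ultra B} (k : κ) (h : c k ∈ U) :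
    ⨆ k, c k ∈ U := Ultra.mono h (le_iSup c k)

/-- every element may be assumed to be the class of a small name -/
@[elab_as_elim]
theorem wlog_small {Φ : Ultra B → Prop} (X : HName B l) (U : Ultra B) [Dec Φ]
    (H : ∀ U x, cls U X = sm U x → Φ U) : Φ U :=
  wlog_sup (fun x => HName.eq X (HName.emb x)) U (by rw [HName.iSup_eq_emb]; exact U.top_mem)
    fun U x hx => H U x (cls_eq.mpr hx)

theorem mem_intro {U : Ultra B} (y : SName B l) (i : y.idx) (h : y.val i ∈ U) :
    El l U (sm U (y.fn i)) (sm U y) := by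
  rw [el_sm, SName.mem_def]
  exact iSup_mem_of_mem i (by rw [SName.eq_refl, inf_top_eq]; exact h)

/-- an element of a small name may be assumed to be one of its listed elements -/
@[elab_as_elim]
theorem wlog_mem {Φ : Ultra B → Prop} (Z : HName B l) (y : SName B l) (U : Ultra B)
    (h : El l U (cls U Z) (sm U y)) [Dec Φ]
    (H : ∀ U i, y.val i ∈ U → cls U Z = sm U (y.fn i) → Φ U) : Φ U := by
  revert h
  refine wlog_small Z U ?_
  intro U z hz h
  rw [hz, el_sm, SName.mem_def] at h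
  revert hz
  refine wlog_sup _ U h ?_
  intro U i hi hz
  rw [Ultra.inf_mem, ← sm_eq] at hi
  exact H U i hi.1 (hz.trans hi.2)

theorem mem_mk {U : Ultra B} {ι : Type u} (h : #ι < l) (A : ι → SName B l) (b : ι → B) (i : ι)
    (hb : b i ∈ U) : El l U (sm U (A i)) (sm U (SName.mk ι h A b)) :=
  mem_intro (SName.mk ι h A b) i hb

@[elab_as_elim]
theorem wlog_mk {Φ : Ultra B → Prop} (Z : HName B l) {ι : Type u} (hι : #ι < l)
    (A : ι → SName B l) (b : ι → B) (U : Ultra B)
    (h : El l U (cls U Z) (sm U (SName.mk ι hι A b))) [Dec Φ]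
    (H : ∀ U i, b i ∈ U → cls U Z = sm U (A i) → Φ U) : Φ U :=
  wlog_mem Z (SName.mk ι hι A b) U h H

instance Dec.sat [Nonempty (HName B l)] (φ : Fml) (v : ℕ → HName B l) :
    Dec (fun U => Sat (El l U) φ (fun n => cls U (v n))) := by
  induction φ generalizing v with
  | mem i j => exact Dec.el _ _
  | eq i j => exact Dec.eq _ _
  | neg φ ih => exact Dec.not _
  | conj φ ψ ih1 ih2 => exact Dec.and _ _
  | all i φ ih =>
    have : ∀ X, Dec (fun U => Sat (El l U) φ (Function.update (fun n => cls U (v n)) i (cls U X))) := by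
      intro X
      have := ih (Function.update v i X)
      convert this using 3
      funext n
      by_cases h : n = i
      · subst h; simp
      · simp [Function.update_of_ne h]
    exact Dec.forall (fun U x => Sat (El l U) φ (Function.update (fun n => cls U (v n)) i x))

section internal

variable [Nonempty (HName B l)]

instance Dec.sub (X Y : HName B l) : Dec (fun U => Sub (El l U) (cls U X) (cls U Y)) := by
  unfold Sub; infer_instance

instance Dec.isUPair (X Y Z : HName B l) :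
    Dec (fun U => IsUPair (El l U) (cls U X) (cls U Y) (cls U Z)) := by
  unfold IsUPair; infer_instance

instance Dec.isKPair (X Y Z : HName B l) :
    Dec (fun U => IsKPair (El l U) (cls U X) (cls U Y) (cls U Z)) := by
  unfold IsKPair; infer_instance

instance Dec.maps (X Y Z : HName B l) :
    Dec (fun U => Maps (El l U) (cls U X) (cls U Y) (cls U Z)) := by
  unfold Maps; infer_instance

instance Dec.inj (X Y : HName B l) : Dec (fun U => Inj (El l U) (cls U X) (cls U Y)) := by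
  unfold Inj; infer_instance

instance Dec.isOrd (X : HName B l) : Dec (fun U => IsOrd (El l U) (cls U X)) := by
  unfold IsOrd; infer_instance

instance Dec.isCard (X : HName B l) : Dec (fun U => IsCard (El l U) (cls U X)) := by
  unfold IsCard; infer_instance

instance Dec.isInductive (X : HName B l) : Dec (fun U => IsInductive (El l U) (cls U X)) := by
  unfold IsInductive; infer_instance

instance Dec.isOmega (X : HName B l) : Dec (fun U => IsOmega (El l U) (cls U X)) := by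
  unfold IsOmega; infer_instance

instance Dec.isSucc (X Y : HName B l) : Dec (fun U => IsSucc (El l U) (cls U X) (cls U Y)) := by
  unfold IsSucc; infer_instance

end internal

end Pool.Agent.Shared.Forcing
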