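import Pool.Agent.Shared.Forcing.RO

/-! Boolean-valued names, hereditarily small names, and their completion under mixing. -/

namespace Pool.Agent.Shared.Forcing

open Cardinal

universe u v

inductive PName (B : Type u) : Type (u + 1)
  | mk (ι : Type u) (A : ι → PName B) (b : ι → B) : PName B

namespace PName

variable {B : Type u}

def idx : PName B → Type u
  | mk ι _ _ => ι

def fn : (x : PName B) → x.idx → PName B
  | mk _ A _ => A

def val : (x : PName B) → x.idx → B
  | mk _ _ b => b

def Sm (l : Cardinal.{u}) : PName B → Prop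
  | mk ι A _ => #ι < l ∧ ∀ i, Sm l (A i)

variable [CompleteBooleanAlgebra B]

def eq : PName B → PName B → B
  | mk _ A a, mk _ A' a' =>
    (⨅ i, a i ⇨ ⨆ j, a' j ⊓ eq (A i) (A' j)) ⊓ (⨅ j, a' j ⇨ ⨆ i, a i ⊓ eq (A i) (A' j))

def mem (x y : PName B) : B := ⨆ j, y.val j ⊓ eq x (y.fn j)

theorem eq_refl (x : PName B) : eq x x = ⊤ := by
  induction x with
  | mk ι A a ih =>
    simp only [eq, inf_eq_top_iff, iInf_eq_top, himp_eq_top_iff]
    constructor <;> intro i <;> exact le_iSup_of_le i (by simp [ih])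

theorem eq_symm (x y : PName B) : eq x y = eq y x := by
  induction x generalizing y with
  | mk ι A a ih =>
    cases y with
    | mk ι' A' a' =>
      simp only [eq]
      rw [inf_comm]
      simp only [ih]

theorem eq_def (x y : PName B) :
    eq x y = (⨅ i, x.val i ⇨ mem (x.fn i) y) ⊓ (⨅ j, y.val j ⇨ mem (y.fn j) x) := by
  cases x with
  | mk ι A a =>
    cases y with
    | mk ι' A' a' =>
      simp only [eq, mem, val, fn]
      congr 1
      simp only [eq_symm (A _)]
      rfl

theorem eq_le_left (x y : PName B) (i : x.idx) : eq x y ⊓ x.val i ≤ mem (x.fn i) y := by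
  rw [← le_himp_iff, eq_def]
  exact inf_le_left.trans (iInf_le _ i)

theorem eq_trans (x y z : PName B) : eq x y ⊓ eq y z ≤ eq x z := by
  induction x generalizing y z with
  | mk ι A a ih =>
    rw [eq_def (mk ι A a) z]
    refine le_inf (le_iInf fun i => ?_) (le_iInf fun k => ?_)
    · rw [le_himp_iff]
      calc eq (mk ι A a) y ⊓ eq y z ⊓ a i ≤ mem (A i) y ⊓ eq y z :=
            le_inf ((inf_le_inf_right _ inf_le_left).trans (eq_le_left (mk ι A a) y i))
              (inf_le_left.trans inf_le_right)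
        _ ≤ mem (A i) z := by
            rw [mem, iSup_inf_eq]
            refine iSup_le fun j => ?_
            calc y.val j ⊓ eq (A i) (y.fn j) ⊓ eq y z ≤ eq (A i) (y.fn j) ⊓ mem (y.fn j) z :=
                  le_inf (inf_le_left.trans inf_le_right)
                    ((le_inf inf_le_right (inf_le_left.trans inf_le_left)).trans (eq_le_left y z j))
              _ ≤ mem (A i) z := by
                  rw [mem, inf_iSup_eq]
                  refine iSup_le fun k => le_iSup_of_le k ?_
                  exact le_inf (inf_le_right.trans inf_le_left)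
                    ((inf_le_inf_left _ inf_le_right).trans (ih i _ _))
    · rw [le_himp_iff]
      calc eq (mk ι A a) y ⊓ eq y z ⊓ z.val k ≤ mem (z.fn k) y ⊓ eq y (mk ι A a) :=
            le_inf ((inf_le_inf_right _ (inf_le_right.trans (eq_symm y z).le)).trans
              (eq_le_left z y k))
              (inf_le_left.trans (inf_le_left.trans (eq_symm _ _).le))
        _ ≤ mem (z.fn k) (mk ι A a) := by
            rw [mem, iSup_inf_eq]
            refine iSup_le fun j => ?_
            calc y.val j ⊓ eq (z.fn k) (y.fn j) ⊓ eq y (mk ι A a)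
                ≤ eq (z.fn k) (y.fn j) ⊓ mem (y.fn j) (mk ι A a) :=
                  le_inf (inf_le_left.trans inf_le_right)
                    ((le_inf inf_le_right (inf_le_left.trans inf_le_left)).trans (eq_le_left y _ j))
              _ ≤ mem (z.fn k) (mk ι A a) := by
                  rw [mem, inf_iSup_eq]
                  refine iSup_le fun i => le_iSup_of_le i ?_
                  refine le_inf (inf_le_right.trans inf_le_left) ?_
                  have := ih i (y.fn j) (z.fn k)
                  rw [eq_symm (A i) (y.fn j), eq_symm (y.fn j) (z.fn k), eq_symm (A i) (z.fn k)] at this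
                  exact (le_inf (inf_le_right.trans inf_le_right) inf_le_left).trans this

theorem mem_congr_left (x x' y : PName B) : eq x x' ⊓ mem x y ≤ mem x' y := by
  rw [mem, inf_iSup_eq]
  refine iSup_le fun j => le_iSup_of_le j (le_inf (inf_le_right.trans inf_le_left) ?_)
  rw [eq_symm x x']
  exact (inf_le_inf_left _ inf_le_right).trans (eq_trans _ _ _)

theorem mem_congr_right (x y y' : PName B) : eq y y' ⊓ mem x y ≤ mem x y' := by
  rw [mem, inf_iSup_eq]
  refine iSup_le fun j => ?_
  refine le_trans (le_inf (inf_le_right.trans inf_le_right) ((inf_le_inf_left _ inf_le_left).trans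
    (eq_le_left y y' j))) ?_
  rw [eq_symm]
  exact mem_congr_left _ _ _

end PName

/-- hereditarily small names -/
def SName (B : Type u) (l : Cardinal.{u}) : Type (u + 1) := {x : PName B // x.Sm l}

namespace SName

variable {B : Type u} {l : Cardinal.{u}}

def mk (ι : Type u) (h : #ι < l) (A : ι → SName B l) (b : ι → B) : SName B l :=
  ⟨PName.mk ι (fun i => (A i).1) b, h, fun i => (A i).2⟩

def idx (x : SName B l) : Type u := x.1.idx

theorem sm_fn : ∀ (x : PName B) (_ : x.Sm l) (i : x.idx), (x.fn i).Sm l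
  | PName.mk _ _ _, h, i => h.2 i

theorem card_idx : ∀ x : SName B l, #x.idx < l
  | ⟨PName.mk _ _ _, h⟩ => h.1

def fn (x : SName B l) (i : x.idx) : SName B l := ⟨x.1.fn i, sm_fn x.1 x.2 i⟩

def val (x : SName B l) (i : x.idx) : B := x.1.val i

theorem ind {P : SName B l → Prop} (h : ∀ x, (∀ i, P (x.fn i)) → P x) (x : SName B l) : P x := by
  obtain ⟨x, hx⟩ := x
  induction x with
  | mk ι A a ih => exact h _ fun i => ih i (hx.2 i)

variable [CompleteBooleanAlgebra B]

def eq (x y : SName B l) : B := x.1.eq y.1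

def mem (x y : SName B l) : B := x.1.mem y.1

theorem eq_refl (x : SName B l) : eq x x = ⊤ := PName.eq_refl _
theorem eq_symm (x y : SName B l) : eq x y = eq y x := PName.eq_symm _ _
theorem eq_trans (x y z : SName B l) : eq x y ⊓ eq y z ≤ eq x z := PName.eq_trans _ _ _
theorem mem_congr_left (x x' y : SName B l) : eq x x' ⊓ mem x y ≤ mem x' y :=
  PName.mem_congr_left _ _ _
theorem mem_congr_right (x y y' : SName B l) : eq y y' ⊓ mem x y ≤ mem x y' :=
  PName.mem_congr_right _ _ _
theorem mem_def (x y : SName B l) : mem x y = ⨆ j, y.val j ⊓ eq x (y.fn j) := rfl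
theorem eq_expand (x y : SName B l) :
    eq x y = (⨅ i, x.val i ⇨ mem (x.fn i) y) ⊓ (⨅ j, y.val j ⇨ mem (y.fn j) x) :=
  PName.eq_def _ _

attribute [irreducible] eq mem

end SName

/-- The completion of the small names under mixing: Boolean-valued singletons. -/
structure HName (B : Type u) [CompleteBooleanAlgebra B] (l : Cardinal.{u}) : Type (u + 1) where
  f : SName B l → B
  congr : ∀ x y, f x ⊓ x.eq y ≤ f y
  uniq : ∀ x y, f x ⊓ f y ≤ x.eq y
  total : ⨆ x, f x = ⊤

namespace HName

variable {B : Type u} [CompleteBooleanAlgebra B] {l : Cardinal.{u}}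

def emb (x : SName B l) : HName B l where
  f := fun y => x.eq y
  congr := fun _ _ => SName.eq_trans _ _ _
  uniq := fun y z => by rw [SName.eq_symm x y]; exact SName.eq_trans _ _ _
  total := top_le_iff.mp (le_iSup_of_le x (SName.eq_refl x).ge)

def eq (X Y : HName B l) : B := ⨆ x, X.f x ⊓ Y.f x

def mem (X Y : HName B l) : B := ⨆ x, ⨆ y, X.f x ⊓ Y.f y ⊓ x.mem y

theorem eq_refl (X : HName B l) : eq X X = ⊤ := by simp [eq, X.total]

theorem eq_symm (X Y : HName B l) : eq X Y = eq Y X := by simp only [eq, inf_comm]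

theorem eq_inf_le (X Y : HName B l) (x : SName B l) : eq X Y ⊓ X.f x ≤ Y.f x := by
  rw [eq, iSup_inf_eq]
  refine iSup_le fun y => ?_
  exact (le_inf (inf_le_left.trans inf_le_right)
    ((inf_le_inf_right _ inf_le_left).trans (X.uniq y x))).trans (Y.congr y x)

theorem eq_trans (X Y Z : HName B l) : eq X Y ⊓ eq Y Z ≤ eq X Z := by
  rw [eq, iSup_inf_eq]
  refine iSup_le fun x => le_iSup_of_le x (le_inf (inf_le_left.trans inf_le_left) ?_)
  exact (le_inf inf_le_right (inf_le_left.trans inf_le_right)).trans (eq_inf_le Y Z x)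

theorem mem_congr (X X' Y Y' : HName B l) : eq X X' ⊓ eq Y Y' ⊓ mem X Y ≤ mem X' Y' := by
  rw [mem, inf_iSup_eq]
  refine iSup_le fun x => le_iSup_of_le x ?_
  rw [inf_iSup_eq]
  refine iSup_le fun y => le_iSup_of_le y ?_
  refine le_inf (le_inf ?_ ?_) (inf_le_right.trans inf_le_right)
  · exact (inf_le_inf inf_le_left (inf_le_left.trans inf_le_left)).trans (eq_inf_le X X' x)
  · exact (inf_le_inf inf_le_right (inf_le_left.trans inf_le_right)).trans (eq_inf_le Y Y' y)

theorem eq_emb (X : HName B l) (x : SName B l) : eq X (emb x) = X.f x := by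
  apply le_antisymm
  · refine iSup_le fun y => ?_
    show X.f y ⊓ x.eq y ≤ _
    rw [SName.eq_symm]; exact X.congr y x
  · exact le_iSup_of_le x (le_inf le_rfl (le_top.trans (SName.eq_refl x).ge))

theorem eq_emb_emb (x y : SName B l) : eq (emb x) (emb y) = x.eq y := eq_emb _ _

theorem mem_emb_emb (x y : SName B l) : mem (emb x) (emb y) = x.mem y := by
  apply le_antisymm
  · refine iSup_le fun x' => iSup_le fun y' => ?_
    show x.eq x' ⊓ y.eq y' ⊓ x'.mem y' ≤ _
    rw [SName.eq_symm x, SName.eq_symm y, inf_assoc]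
    exact (inf_le_inf_left _ (SName.mem_congr_right _ _ _)).trans (SName.mem_congr_left _ _ _)
  · refine le_iSup_of_le x (le_iSup_of_le y ?_)
    show _ ≤ x.eq x ⊓ y.eq y ⊓ x.mem y
    simp [SName.eq_refl]

theorem iSup_eq_emb (X : HName B l) : ⨆ x, eq X (emb x) = ⊤ := by
  simp only [eq_emb, X.total]

/-- mixing along a partition of unity -/
def mix {κ : Type v} (c : κ → B) (hd : ∀ i j, i ≠ j → c i ⊓ c j = ⊥) (ht : ⨆ i, c i = ⊤)
    (X : κ → HName B l) : HName B l where
  f := fun x => ⨆ i, c i ⊓ (X i).f x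
  congr := fun x y => by
    rw [iSup_inf_eq]
    exact iSup_mono fun i => by rw [inf_assoc]; exact inf_le_inf_left _ ((X i).congr x y)
  uniq := fun x y => by
    rw [iSup_inf_eq]
    refine iSup_le fun i => ?_
    rw [inf_iSup_eq]
    refine iSup_le fun j => ?_
    by_cases h : i = j
    · subst h
      exact (inf_le_inf inf_le_right inf_le_right).trans ((X i).uniq x y)
    · exact ((inf_le_inf inf_le_left inf_le_left).trans (hd i j h).le).trans bot_le
  total := by
    rw [iSup_comm]
    simp only [← inf_iSup_eq, (X _).total, inf_top_eq, ht]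

theorem le_eq_mix {κ : Type v} (c : κ → B) (hd : ∀ i j, i ≠ j → c i ⊓ c j = ⊥)
    (ht : ⨆ i, c i = ⊤) (X : κ → HName B l) (i : κ) : c i ≤ eq (mix c hd ht X) (X i) := by
  calc c i = ⨆ x, c i ⊓ (X i).f x := by rw [← inf_iSup_eq, (X i).total, inf_top_eq]
    _ ≤ _ := iSup_mono fun x => le_inf (le_iSup (fun i => c i ⊓ (X i).f x) i) inf_le_right

attribute [irreducible] emb eq mem

end HName

/-- well-founded decomposition of a supremum -/
theorem iSup_eq_iSup_first {B : Type u} [CompleteBooleanAlgebra B] {κ : Type v}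
    (r : κ → κ → Prop) (hr : WellFounded r) (c : κ → B) :
    ⨆ i, c i = ⨆ i, c i ⊓ ⨅ j, ⨅ (_ : r j i), (c j)ᶜ := by
  refine le_antisymm (iSup_le fun i => ?_) (iSup_mono fun i => inf_le_left)
  induction i using hr.induction with
  | _ i ih =>
    have h1 : c i ⊓ (⨅ j, ⨅ (_ : r j i), (c j)ᶜ)ᶜ ≤ ⨆ i, c i ⊓ ⨅ j, ⨅ (_ : r j i), (c j)ᶜ := by
      refine inf_le_right.trans ?_
      simp only [compl_iInf, compl_compl]
      exact iSup_le fun j => iSup_le fun hj => ih j hj
    calc c i = c i ⊓ (⨅ j, ⨅ (_ : r j i), (c j)ᶜ) ⊔ c i ⊓ (⨅ j, ⨅ (_ : r j i), (c j)ᶜ)ᶜ := by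
          rw [← inf_sup_left, sup_compl_eq_top, inf_top_eq]
      _ ≤ _ := sup_le (le_iSup (fun i => c i ⊓ ⨅ j, ⨅ (_ : r j i), (c j)ᶜ) i) h1

/-- the maximum principle -/
theorem HName.exists_max {B : Type u} [CompleteBooleanAlgebra B] {l : Cardinal.{u}}
    [Nonempty (HName B l)] (φ : HName B l → B) (hφ : ∀ X Y, HName.eq X Y ⊓ φ X ≤ φ Y) :
    ∃ X, ∀ Y, φ Y ≤ φ X := by
  obtain ⟨_, hwf⟩ := exists_wellFoundedLT (HName B l)
  obtain ⟨X0⟩ := ‹Nonempty (HName B l)›
  let c : Option (HName B l) → B := fun o =>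
    o.elim (⨆ Y, φ Y)ᶜ (fun Y => φ Y ⊓ ⨅ Z, ⨅ (_ : Z < Y), (φ Z)ᶜ)
  have hd : ∀ i j, i ≠ j → c i ⊓ c j = ⊥ := by
    have key : ∀ Y Z, Z < Y → c (some Y) ⊓ c (some Z) = ⊥ := by
      intro Y Z h
      apply le_bot_iff.mp
      calc c (some Y) ⊓ c (some Z) ≤ (φ Z)ᶜ ⊓ φ Z :=
            inf_le_inf (inf_le_right.trans (iInf₂_le Z h)) inf_le_left
        _ = ⊥ := compl_inf_eq_bot
    have key2 : ∀ Y, c none ⊓ c (some Y) = ⊥ := by
      intro Y
      apply le_bot_iff.mp
      calc c none ⊓ c (some Y) ≤ (φ Y)ᶜ ⊓ φ Y :=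
            inf_le_inf (compl_le_compl (le_iSup φ Y)) inf_le_left
        _ = ⊥ := compl_inf_eq_bot
    rintro (_ | Y) (_ | Z) h
    · exact absurd rfl h
    · exact key2 Z
    · rw [inf_comm]; exact key2 Y
    · rcases lt_trichotomy Y Z with h' | h' | h'
      · rw [inf_comm]; exact key _ _ h'
      · exact absurd (congrArg some h') h
      · exact key _ _ h'
  have hs := iSup_eq_iSup_first (· < ·) hwf.wf φ
  have ht : ⨆ i, c i = ⊤ := by
    rw [iSup_option]
    show (⨆ Y, φ Y)ᶜ ⊔ ⨆ Y, φ Y ⊓ ⨅ Z, ⨅ (_ : Z < Y), (φ Z)ᶜ = ⊤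
    rw [← hs, compl_sup_eq_top]
  let X : Option (HName B l) → HName B l := fun o => o.getD X0
  refine ⟨HName.mix c hd ht X, fun Y => (le_iSup φ Y).trans (hs.le.trans (iSup_le fun Z => ?_))⟩
  have := HName.le_eq_mix c hd ht X (some Z)
  rw [HName.eq_symm] at this
  exact (le_inf this inf_le_left).trans (hφ Z _)

end Pool.Agent.Shared.Forcing
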