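import Pool.Agent.Shared.Forcing.Model

/-! The generic extensions `Md l U` are models of ZFC. -/

namespace Pool.Agent.Shared.Forcing

open Cardinal

universe u v

/-- Easton-type factorisation property of a complete Boolean algebra. -/
def Fac {B : Type u} [CompleteBooleanAlgebra B] (c : Cardinal.{u}) (S₀ : Set B) : Prop :=
  ∀ (ι : Type u), #ι < c → ∀ D : ι → Set B, (∀ i b, b ≠ ⊥ → ∃ b' ≤ b, b' ≠ ⊥ ∧ b' ∈ D i) →
    (∀ i b b', b' ≤ b → b ∈ D i → b' ∈ D i) → ∀ b, b ≠ ⊥ → ∃ b' ≤ b, b' ≠ ⊥ ∧ ∃ S ⊆ S₀, #S < c ∧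
      ∀ i, b' ≤ ⨆ s : {s // s ∈ S ∧ s ⊓ b' ∈ D i}, s.1

variable {B : Type u} [CompleteBooleanAlgebra B] {l : Cardinal.{u}} [hl : Fact l.IsInaccessible]

theorem aleph0_lt_l : ℵ₀ < l := hl.out.aleph0_lt

theorem fin_lt_l (ι : Type u) [Finite ι] : #ι < l := (lt_aleph0_of_finite ι).trans aleph0_lt_l

theorem prod_lt_l {ι κ : Type u} (h1 : #ι < l) (h2 : #κ < l) : #(ι × κ) < l := by
  rw [mk_prod, lift_id, lift_id]; exact mul_lt_of_lt aleph0_lt_l.le h1 h2

theorem sigma_lt_l {ι : Type u} {κ : ι → Type u} (h1 : #ι < l) (h2 : ∀ i, #(κ i) < l) :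
    #(Σ i, κ i) < l := by
  rw [mk_sigma]; exact sum_lt_of_isRegular hl.out.isRegular h1 h2

theorem set_lt_l {ι : Type u} (h1 : #ι < l) : #(Set ι) < l := by
  rw [mk_set]; exact hl.out.isStrongPrelimit h1

def emptyName : SName B l := SName.mk PEmpty (fin_lt_l _) PEmpty.elim PEmpty.elim

instance : Nonempty (HName B l) := ⟨HName.emb emptyName⟩

theorem md_ext (U : Ultra B) (a b : Md l U) (h : ∀ z, El l U z a ↔ El l U z b) : a = b := by
  obtain ⟨X, rfl⟩ := cls_surj a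
  obtain ⟨Y, rfl⟩ := cls_surj b
  revert h
  refine wlog_small X U ?_
  intro U x hx
  rw [hx]
  clear hx
  refine wlog_small Y U ?_
  intro U y hy
  rw [hy]
  clear hy
  intro h
  rw [sm_eq, SName.eq_expand, Ultra.inf_mem]
  constructor
  · refine iInf_mem_of (Φ := fun U => ∀ z, El l U z (sm U x) ↔ El l U z (sm U y)) ?_ U h
    intro i U h
    rw [Ultra.himp_mem, ← el_sm]
    exact fun hi => (h _).mp (mem_intro x i hi)
  · refine iInf_mem_of (Φ := fun U => ∀ z, El l U z (sm U x) ↔ El l U z (sm U y)) ?_ U h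
    intro i U h
    rw [Ultra.himp_mem, ← el_sm]
    exact fun hi => (h _).mpr (mem_intro y i hi)

theorem md_found (U : Ultra B) (a : Md l U) (h : ∃ z, El l U z a) :
    ∃ y, El l U y a ∧ ∀ z, El l U z y → ¬ El l U z a := by
  obtain ⟨X, rfl⟩ := cls_surj a
  have key : ∀ y : SName B l, ∀ U, El l U (sm U y) (cls U X) →
      ∃ y, El l U y (cls U X) ∧ ∀ z, El l U z y → ¬ El l U z (cls U X) := by
    intro y
    induction y using SName.ind with
    | h y ih =>
      intro U hy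
      by_cases hm : ∀ z, El l U z (sm U y) → ¬ El l U z (cls U X)
      · exact ⟨_, hy, hm⟩
      · push Not at hm
        obtain ⟨z, hz1, hz2⟩ := hm
        obtain ⟨Z, rfl⟩ := cls_surj z
        revert hz2
        refine wlog_mem Z y U hz1 ?_
        intro U i _ e hz2
        exact ih i U (e ▸ hz2)
  obtain ⟨z, hz⟩ := h
  obtain ⟨Z, rfl⟩ := cls_surj z
  revert hz
  refine wlog_small Z U ?_
  intro U y e hz
  exact key y U (e ▸ hz)

def upairName (x y : SName B l) : SName B l :=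
  SName.mk (ULift Bool) (fin_lt_l _) (fun b => if b.down then x else y) (fun _ => ⊤)

theorem isUPair_upairName (U : Ultra B) (x y : SName B l) :
    IsUPair (El l U) (sm U (upairName x y)) (sm U x) (sm U y) := by
  intro z
  constructor
  · intro h
    obtain ⟨Z, rfl⟩ := cls_surj z
    refine wlog_mk Z (fin_lt_l _) _ _ U h ?_
    rintro U ⟨_ | _⟩ - e
    · exact Or.inr e
    · exact Or.inl e
  · rintro (rfl | rfl)
    · exact mem_mk _ (fun b : ULift Bool => if b.down then x else y) _ ⟨true⟩ U.top_mem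
    · exact mem_mk _ (fun b : ULift Bool => if b.down then x else y) _ ⟨false⟩ U.top_mem

theorem md_pair (U : Ultra B) (a b : Md l U) : ∃ p, ∀ z, El l U z p ↔ z = a ∨ z = b := by
  obtain ⟨X, rfl⟩ := cls_surj a
  obtain ⟨Y, rfl⟩ := cls_surj b
  refine wlog_small X U ?_
  intro U x hx
  rw [hx]
  clear hx
  refine wlog_small Y U ?_
  intro U y hy
  rw [hy]
  exact ⟨_, isUPair_upairName U x y⟩

theorem md_union (U : Ultra B) (a : Md l U) :
    ∃ s, ∀ z, El l U z s ↔ ∃ y, El l U y a ∧ El l U z y := by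
  obtain ⟨X, rfl⟩ := cls_surj a
  refine wlog_small X U ?_
  intro U x hx
  rw [hx]
  clear hx
  have hι : #(Σ i : x.idx, (x.fn i).idx) < l := sigma_lt_l x.card_idx fun i => (x.fn i).card_idx
  refine ⟨sm U (SName.mk _ hι (fun j => (x.fn j.1).fn j.2) (fun j => x.val j.1 ⊓ (x.fn j.1).val j.2)),
    fun z => ⟨fun h => ?_, ?_⟩⟩
  · obtain ⟨Z, rfl⟩ := cls_surj z
    refine wlog_mk Z hι _ _ U h ?_
    intro U j hj e
    rw [Ultra.inf_mem] at hj
    exact ⟨_, mem_intro x j.1 hj.1, e ▸ mem_intro _ j.2 hj.2⟩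
  · rintro ⟨y, hy, hz⟩
    obtain ⟨Z, rfl⟩ := cls_surj z
    obtain ⟨Y, rfl⟩ := cls_surj y
    revert hz
    refine wlog_mem Y x U hy ?_
    intro U i hi e hz
    rw [e] at hz
    revert hi
    refine wlog_mem Z _ U hz ?_
    intro U j hj e hi
    rw [e]
    exact mem_mk hι (fun j => (x.fn j.1).fn j.2) _ ⟨i, j⟩ (Ultra.inf_mem.mpr ⟨hi, hj⟩)

/-- the name for a definable subset of a small name -/
noncomputable def sepName (x : SName B l) (Ψ : ∀ U : Ultra B, Md l U → Prop)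
    [∀ X, Dec (fun U => Ψ U (cls U X))] : SName B l :=
  SName.mk _ x.card_idx x.fn (fun i => x.val i ⊓ bv (fun U => Ψ U (sm U (x.fn i))))

theorem mem_sepName (x : SName B l) (Ψ : ∀ U : Ultra B, Md l U → Prop)
    [∀ X, Dec (fun U => Ψ U (cls U X))] (U : Ultra B) (z : Md l U) :
    El l U z (sm U (sepName x Ψ)) ↔ El l U z (sm U x) ∧ Ψ U z := by
  obtain ⟨Z, rfl⟩ := cls_surj z
  constructor
  · intro h
    refine wlog_mk Z x.card_idx _ _ U h ?_
    intro U i hi e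
    rw [Ultra.inf_mem, bv_mem] at hi
    exact e ▸ ⟨mem_intro x i hi.1, hi.2⟩
  · rintro ⟨h1, h2⟩
    revert h2
    refine wlog_mem Z x U h1 ?_
    intro U i hi e h2
    rw [e] at h2 ⊢
    exact mem_mk _ _ _ i (Ultra.inf_mem.mpr ⟨hi, bv_mem.mpr h2⟩)

theorem md_sep (Ψ : ∀ U : Ultra B, Md l U → Prop) [∀ X, Dec (fun U => Ψ U (cls U X))]
    (U : Ultra B) (a : Md l U) : ∃ b, ∀ z, El l U z b ↔ El l U z a ∧ Ψ U z := by
  obtain ⟨X, rfl⟩ := cls_surj a
  refine wlog_small X U ?_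
  intro U x hx
  rw [hx]
  exact ⟨_, mem_sepName x Ψ U⟩

theorem md_choice (U : Ultra B) (a : Md l U) (h1 : ∀ x, El l U x a → ∃ z, El l U z x)
    (h2 : ∀ x y z, El l U x a → El l U y a → El l U z x → El l U z y → x = y) :
    ∃ c, ∀ x, El l U x a → ∃! z, El l U z x ∧ El l U z c := by
  obtain ⟨X, rfl⟩ := cls_surj a
  revert h1 h2
  refine wlog_small X U ?_
  intro U a ha
  rw [ha]
  clear ha
  intro h1 h2
  let J := Σ i : a.idx, (a.fn i).idx
  have hJ : #J < l := sigma_lt_l a.card_idx fun i => (a.fn i).card_idx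
  obtain ⟨_, hwf⟩ := exists_wellFoundedLT J
  let z : J → SName B l := fun j => (a.fn j.1).fn j.2
  let first : HName B l → J → B := fun Y j =>
    HName.mem (HName.emb (z j)) Y ⊓ ⨅ j', ⨅ (_ : j' < j), (HName.mem (HName.emb (z j')) Y)ᶜ
  let val : J → B := fun j => ⨆ Y, HName.mem Y (HName.emb a) ⊓ first Y j
  refine ⟨sm U (SName.mk J hJ z val), fun x hx => ?_⟩
  obtain ⟨X, rfl⟩ := cls_surj x
  obtain ⟨y, hy⟩ := h1 _ hx
  obtain ⟨Y, rfl⟩ := cls_surj y
  have hsup : ⨆ j, HName.mem (HName.emb (z j)) X ∈ U := by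
    revert hy
    refine wlog_mem X a U hx ?_
    intro U i _ e hy
    have hy' := hy
    rw [e] at hy'
    revert hy
    refine wlog_mem Y _ U hy' ?_
    intro U j _ e hy
    rw [e] at hy
    exact iSup_mem_of_mem (⟨i, j⟩ : J) (el_cls.mp hy)
  rw [iSup_eq_iSup_first (· < ·) hwf.wf] at hsup
  clear h1 hy
  revert hx h2
  refine wlog_sup _ U hsup ?_
  intro U j hj h2 hx
  have hj' := Ultra.inf_mem.mp hj
  refine ⟨sm U (z j), ⟨el_cls.mpr hj'.1, mem_mk hJ z val j
    (iSup_mem_of_mem X (Ultra.inf_mem.mpr ⟨el_cls.mp hx, hj⟩))⟩, ?_⟩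
  rintro w ⟨hw1, hw2⟩
  obtain ⟨W, rfl⟩ := cls_surj w
  clear hj'
  revert hj hx h2 hw1
  refine wlog_mk W hJ z val U hw2 ?_
  intro U k hk e
  rw [e]
  refine wlog_sup _ U hk ?_
  intro U X' hX' hj h2 hx hw1
  obtain ⟨hX1, hX2⟩ := Ultra.inf_mem.mp hX'
  obtain ⟨hX2, hX3⟩ := Ultra.inf_mem.mp hX2
  obtain ⟨hj1, hj2⟩ := Ultra.inf_mem.mp hj
  have e : cls U X = cls U X' := h2 _ _ _ hx (el_cls.mpr hX1) hw1 (el_cls.mpr hX2)
  rcases lt_trichotomy k j with h | h | h
  · exact absurd (el_cls.mp hw1) (Ultra.compl_mem.mp (mem_of_iInf_mem (mem_of_iInf_mem hj2 k) h))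
  · rw [h]
  · have : El l U (sm U (z j)) (cls U X') := e ▸ el_cls.mpr hj1
    exact absurd (el_cls.mp this) (Ultra.compl_mem.mp (mem_of_iInf_mem (mem_of_iInf_mem hX3 j) h))

/-- the hypothesis making the small names a model of power set and collection -/
def Tame (B : Type u) [CompleteBooleanAlgebra B] (l : Cardinal.{u}) : Prop :=
  ∀ a < l, ∃ c, ∃ S₀ : Set B, a < c ∧ #S₀ < l ∧ Fac c S₀

omit hl in
/-- values on a small index set are densely given by small subsets of the lower part -/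
theorem Fac.values {c : Cardinal.{u}} {S₀ : Set B} (h : Fac c S₀) {ι : Type u} (hι : #ι < c)
    (f : ι → B) (b : B) (hb : b ≠ ⊥) : ∃ b' ≤ b, b' ≠ ⊥ ∧ ∃ S ⊆ S₀, #S < c ∧
      ∀ i, b' ⊓ f i = b' ⊓ sSup {s | s ∈ S ∧ s ⊓ b' ≤ f i} := by
  obtain ⟨b', h1, h2, S, h3, h4, h5⟩ := h ι hι (fun i => {c | c ≤ f i ∨ c ≤ (f i)ᶜ}) (by
    intro i b hb
    by_cases e : b ⊓ f i = ⊥
    · exact ⟨b, le_rfl, hb, Or.inr (le_compl_iff_disjoint_right.mpr (disjoint_iff.mpr e))⟩
    · exact ⟨b ⊓ f i, inf_le_left, e, Or.inl inf_le_right⟩)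
    (fun i b b' h h' => h'.imp h.trans h.trans) b hb
  refine ⟨b', h1, h2, S, h3, h4, fun i => le_antisymm (le_inf inf_le_left ?_) (le_inf inf_le_left ?_)⟩
  · calc b' ⊓ f i ≤ (⨆ s : {s // s ∈ S ∧ s ⊓ b' ∈ {c | c ≤ f i ∨ c ≤ (f i)ᶜ}}, s.1) ⊓ (b' ⊓ f i) :=
          le_inf (inf_le_left.trans (h5 i)) le_rfl
      _ ≤ _ := by
          rw [iSup_inf_eq]
          refine iSup_le fun ⟨s, hs, hs'⟩ => ?_
          rcases hs' with hs' | hs'
          · exact inf_le_left.trans (le_sSup ⟨hs, hs'⟩)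
          · rw [← inf_assoc]
            exact (inf_le_inf_right _ hs').trans (compl_inf_eq_bot.le.trans bot_le)
  · rw [inf_sSup_eq]
    exact iSup₂_le fun s hs => by rw [inf_comm]; exact hs.2

theorem md_power (hT : Tame B l) (U : Ultra B) (a : Md l U) :
    ∃ p, ∀ z, El l U z p ↔ ∀ w, El l U w z → El l U w a := by
  obtain ⟨X, rfl⟩ := cls_surj a
  refine wlog_small X U ?_
  intro U x hx
  rw [hx]
  clear hx
  obtain ⟨c, S₀, hc, hS, hF⟩ := hT _ x.card_idx
  have hJ : #(Set (x.idx × S₀)) < l := set_lt_l (prod_lt_l x.card_idx hS)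
  let g : Set (x.idx × S₀) → x.idx → B := fun Z i => sSup {s | ∃ h : s ∈ S₀, (i, ⟨s, h⟩) ∈ Z}
  let y : Set (x.idx × S₀) → SName B l := fun Z =>
    SName.mk _ x.card_idx x.fn (fun i => x.val i ⊓ g Z i)
  refine ⟨sm U (SName.mk _ hJ y (fun _ => ⊤)), fun z => ⟨fun h => ?_, fun h => ?_⟩⟩
  · obtain ⟨Z, rfl⟩ := cls_surj z
    refine wlog_mk Z hJ _ _ U h ?_
    intro U Φ _ e w hw
    obtain ⟨W, rfl⟩ := cls_surj w
    rw [e] at hw
    refine wlog_mk W x.card_idx _ _ U hw ?_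
    intro U i hi e
    rw [e]
    exact mem_intro x i (Ultra.inf_mem.mp hi).1
  · obtain ⟨Z, rfl⟩ := cls_surj z
    revert h
    refine of_dense (Φ := fun U => (∀ w, El l U w (cls U Z) → El l U w (sm U x)) →
      El l U (cls U Z) (sm U (SName.mk _ hJ y (fun _ => ⊤)))) (b := ⊤) ?_ U U.top_mem
    intro b _ hb
    obtain ⟨b', h1, h2, S, h3, -, h5⟩ := hF.values hc (fun i => HName.mem (HName.emb (x.fn i)) Z) b hb
    refine ⟨b', h1, h2, fun U hU h => ?_⟩
    let Φ : Set (x.idx × S₀) := {q | q.2.1 ∈ S ∧ q.2.1 ⊓ b' ≤ HName.mem (HName.emb (x.fn q.1)) Z}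
    have hg : ∀ i, b' ⊓ HName.mem (HName.emb (x.fn i)) Z = b' ⊓ g Φ i := by
      intro i
      rw [h5 i]
      congr 2
      ext s
      exact ⟨fun h => ⟨h3 h.1, h⟩, fun ⟨_, h⟩ => h⟩
    have : cls U Z = sm U (y Φ) := by
      apply md_ext
      intro w
      obtain ⟨W, rfl⟩ := cls_surj w
      constructor
      · intro hw
        have hw' := h _ hw
        revert hU hw
        refine wlog_mem W x U hw' ?_
        intro U i hi e hU hw
        rw [e] at hw ⊢
        refine mem_mk _ _ _ i (Ultra.inf_mem.mpr ⟨hi, ?_⟩)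
        have := Ultra.inf_mem.mpr ⟨hU, el_cls.mp hw⟩
        rw [hg] at this
        exact (Ultra.inf_mem.mp this).2
      · intro hw
        revert hU
        refine wlog_mk W x.card_idx _ _ U hw ?_
        intro U i hi e hU
        rw [e]
        have := Ultra.inf_mem.mpr ⟨hU, (Ultra.inf_mem.mp hi).2⟩
        rw [← hg] at this
        exact el_cls.mpr (Ultra.inf_mem.mp this).2
    rw [this]
    exact mem_mk hJ y _ Φ U.top_mem

theorem md_collect (hT : Tame B l) (Ψ : ∀ U : Ultra B, Md l U → Md l U → Prop)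
    [∀ X Y, Dec (fun U => Ψ U (cls U X) (cls U Y))] (U : Ultra B) (a : Md l U) :
    ∃ w, ∀ x, El l U x a → (∃ y, Ψ U x y) → ∃ y, El l U y w ∧ Ψ U x y := by
  obtain ⟨X, rfl⟩ := cls_surj a
  refine wlog_small X U ?_
  intro U a ha
  rw [ha]
  clear ha
  obtain ⟨c, S₀, hc, hS, hF⟩ := hT _ a.card_idx
  refine of_dense (Φ := fun U => ∃ w, ∀ x, El l U x (sm U a) → (∃ y, Ψ U x y) →
    ∃ y, El l U y w ∧ Ψ U x y) (b := ⊤) ?_ U U.top_mem
  intro b _ hb
  let v : a.idx → SName B l → B := fun i y => bv (fun U => Ψ U (sm U (a.fn i)) (sm U y))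
  obtain ⟨b', h1, h2, S, h3, -, h5⟩ := hF a.idx hc
    (fun i => {c | (∃ y, c ≤ v i y) ∨ c ≤ (⨆ y, v i y)ᶜ}) (by
      intro i b hb
      by_cases e : b ⊓ ⨆ y, v i y = ⊥
      · exact ⟨b, le_rfl, hb, Or.inr (le_compl_iff_disjoint_right.mpr (disjoint_iff.mpr e))⟩
      · obtain ⟨y, hy⟩ := exists_inf_ne_bot (inf_le_right : b ⊓ ⨆ y, v i y ≤ _) e
        exact ⟨_, inf_le_left.trans inf_le_left, hy, Or.inl ⟨y, inf_le_right⟩⟩)
    (fun i b b' h h' => h'.imp (fun ⟨y, hy⟩ => ⟨y, h.trans hy⟩) h.trans) b hb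
  have hch : ∀ (i : a.idx) (s : S₀), ∃ y, (∃ y, s.1 ⊓ b' ≤ v i y) → s.1 ⊓ b' ≤ v i y := by
    intro i s
    by_cases h : ∃ y, s.1 ⊓ b' ≤ v i y
    · exact ⟨h.choose, fun _ => h.choose_spec⟩
    · exact ⟨emptyName, fun h' => absurd h' h⟩
  choose y hy using hch
  have hJ : #(a.idx × S₀) < l := prod_lt_l a.card_idx hS
  refine ⟨b', h1, h2, fun U hU => ⟨sm U (SName.mk _ hJ (fun q => y q.1 q.2) fun _ => ⊤), ?_⟩⟩
  rintro x hx ⟨y', hy'⟩
  obtain ⟨X, rfl⟩ := cls_surj x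
  obtain ⟨Y, rfl⟩ := cls_surj y'
  revert hU hy'
  refine wlog_mem X a U hx ?_
  intro U i _ e
  rw [e]
  clear e
  refine wlog_small Y U ?_
  intro U y' e
  rw [e]
  clear e
  intro hU hy'
  have := Ultra.mono hU (h5 i)
  revert hU hy'
  refine wlog_sup _ U this ?_
  rintro U ⟨s, hs, hs'⟩ hsU hU hy'
  have hsb : s ⊓ b' ∈ U := Ultra.inf_mem.mpr ⟨hsU, hU⟩
  rcases hs' with hs' | hs'
  · exact ⟨_, mem_mk hJ (fun q => y q.1 q.2) _ (i, ⟨s, h3 hs⟩) U.top_mem,
      bv_mem.mp (Ultra.mono hsb (hy i ⟨s, h3 hs⟩ hs'))⟩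
  · exact absurd (iSup_mem_of_mem (c := v i) y' (bv_mem.mpr hy'))
      (Ultra.compl_mem.mp (Ultra.mono hsb hs'))

omit hl in
theorem update_cls (U : Ultra B) (v : ℕ → HName B l) (i : ℕ) (X : HName B l) :
    Function.update (fun n => cls U (v n)) i (cls U X) = fun n => cls U (Function.update v i X n) := by
  funext n
  by_cases h : n = i
  · subst h; simp
  · simp [Function.update_of_ne h]

theorem modelZFC (hT : Tame B l) (U : Ultra B) (hinf : ∃ w, IsInductive (El l U) w) :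
    ModelZFC (El l U) where
  extensionality := md_ext U
  foundation := md_found U
  pairing := md_pair U
  union := md_union U
  powerset := md_power hT U
  infinity := hinf
  choice := md_choice U
  separation := by
    intro φ v a
    choose V hV using fun n => cls_surj (v n)
    obtain rfl : (fun n => cls U (V n)) = v := funext hV
    have : ∀ X, Dec (fun U => Sat (El l U) φ (Function.update (fun n => cls U (V n)) 0 (cls U X))) := by
      intro X; simp only [update_cls]; infer_instance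
    exact md_sep (fun U z => Sat (El l U) φ (Function.update (fun n => cls U (V n)) 0 z)) U a
  replacement := by
    intro φ v a h
    choose V hV using fun n => cls_surj (v n)
    obtain rfl : (fun n => cls U (V n)) = v := funext hV
    obtain ⟨A, rfl⟩ := cls_surj a
    have : ∀ X Y, Dec (fun U => Sat (El l U) φ
        (Function.update (Function.update (fun n => cls U (V n)) 0 (cls U X)) 1 (cls U Y))) := by
      intro X Y; simp only [update_cls]; infer_instance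
    obtain ⟨w, hw⟩ := md_collect hT (fun U x y => Sat (El l U) φ
        (Function.update (Function.update (fun n => cls U (V n)) 0 x) 1 y)) U (cls U A)
    obtain ⟨b, hb⟩ := md_sep (fun U y => ∃ x, El l U x (cls U A) ∧ Sat (El l U) φ
        (Function.update (Function.update (fun n => cls U (V n)) 0 x) 1 y)) U w
    refine ⟨b, fun y => (hb y).trans ⟨fun h => h.2, fun ⟨x, hx, hxy⟩ => ⟨?_, x, hx, hxy⟩⟩⟩
    obtain ⟨y', hy1, hy2⟩ := hw x hx ⟨y, hxy⟩
    rwa [(h x hx).unique hxy hy2]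

end Pool.Agent.Shared.Forcing
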